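import Mathlib

set_option autoImplicit false

/-! # Incomplete sums of Jacobi symbols to a modulus which is not a square -/

namespace Pool.Agent.W406.TW

open Finset

/-- an odd number which is not a square has a prime factor with odd multiplicity -/
lemma exists_odd_mult {n : ℕ} (hn : n ≠ 0) (h : ¬ IsSquare n) :
    ∃ q : ℕ, q.Prime ∧ Odd (n.factorization q) := by
  by_contra hc
  push Not at hc
  apply h
  have hev : ∀ q, Even (n.factorization q) := by
    intro q
    by_cases hq : q.Prime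
    · exact Nat.not_odd_iff_even.1 (hc q hq)
    · rw [Nat.factorization_eq_zero_of_not_prime n hq]; exact Even.zero
  refine ⟨∏ q ∈ n.primeFactors, q ^ (n.factorization q / 2), ?_⟩
  rw [← prod_mul_distrib]
  conv_lhs => rw [← Nat.prod_factorization_pow_eq_self hn]
  rw [Finsupp.prod, Nat.support_factorization]
  refine prod_congr rfl fun q _ => ?_
  rw [← pow_add]
  congr 1
  obtain ⟨r, hr⟩ := hev q
  omega

lemma exists_neg {n : ℕ} (hn : Odd n) (h : ¬ IsSquare n) : ∃ a : ℤ, jacobiSym a n = -1 := by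
  have hn0 : n ≠ 0 := by rintro rfl; exact absurd hn (by decide)
  obtain ⟨q, hq, hodd⟩ := exists_odd_mult hn0 h
  have := Fact.mk hq
  set e := n.factorization q with he
  set m := n / q ^ e with hm
  have hnm : q ^ e * m = n := Nat.ordProj_mul_ordCompl_eq_self n q
  have hcop : Nat.Coprime q m := Nat.coprime_ordCompl hq hn0
  have he0 : e ≠ 0 := by rintro h0; rw [h0] at hodd; exact absurd hodd (by decide)
  have hqn : q ∣ n := by
    rw [← hnm]; exact Dvd.dvd.mul_right (dvd_pow_self q he0) m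
  have hq2 : q ≠ 2 := by
    rintro rfl
    exact (Nat.not_even_iff_odd.2 hn) (even_iff_two_dvd.2 hqn)
  obtain ⟨r, hr⟩ := quadraticChar_exists_neg_one (F := ZMod q) (by rw [ZMod.ringChar_zmod_n]; exact hq2)
  obtain ⟨a, ha1, ha2⟩ := Nat.chineseRemainder hcop r.val 1
  refine ⟨(a : ℤ), ?_⟩
  rw [← hnm, jacobiSym.mul_right', jacobiSym.pow_right]
  · have h1 : jacobiSym (a : ℤ) q = -1 := by
      rw [← jacobiSym.legendreSym.to_jacobiSym, legendreSym]
      rw [← hr]
      congr 1
      have := (ZMod.natCast_eq_natCast_iff _ _ _).2 ha1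
      rw [ZMod.natCast_zmod_val] at this
      push_cast
      exact this
    have h2 : jacobiSym (a : ℤ) m = 1 := by
      have h3 : jacobiSym (a : ℤ) m = jacobiSym 1 m := by
        apply jacobiSym.mod_left'
        have := ha2
        unfold Nat.ModEq at this
        exact_mod_cast this
      rw [h3, jacobiSym.one_left]
    rw [h1, h2, hodd.neg_one_pow, mul_one]
  · exact pow_ne_zero _ hq.ne_zero
  · rintro h0
    rw [h0, mul_zero] at hnm
    exact hn0 hnm.symm

/-- the Jacobi symbol as a function on `ZMod n` -/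
def jz (n : ℕ) (x : ZMod n) : ℤ := jacobiSym (x.val : ℤ) n

lemma jz_cast (n : ℕ) [NeZero n] (D : ℤ) : jz n (D : ZMod n) = jacobiSym D n := by
  unfold jz
  apply jacobiSym.mod_left'
  rw [ZMod.val_intCast]
  simp

lemma jz_mul (n : ℕ) [NeZero n] (x y : ZMod n) : jz n (x * y) = jz n x * jz n y := by
  have h : x * y = (((x.val : ℤ) * (y.val : ℤ) : ℤ) : ZMod n) := by
    push_cast
    simp
  rw [h, jz_cast, jacobiSym.mul_left]
  rfl

lemma sum_jz {n : ℕ} [NeZero n] (hn : Odd n) (h : ¬ IsSquare n) : ∑ x : ZMod n, jz n x = 0 := by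
  obtain ⟨a, ha⟩ := exists_neg hn h
  have hu : IsUnit (a : ZMod n) := by
    have h1 : a.gcd n = 1 := by
      by_contra hc
      have := jacobiSym.eq_zero_iff_not_coprime.2 hc
      rw [this] at ha
      exact absurd ha (by decide)
    exact (ZMod.coe_int_isUnit_iff_isCoprime a n).2 (Int.isCoprime_iff_gcd_eq_one.2 h1).symm
  obtain ⟨u, hu⟩ := hu
  have h1 : ∑ x : ZMod n, jz n x = ∑ x : ZMod n, jz n ((u : ZMod n) * x) :=
    (Fintype.sum_equiv (Units.mulLeft u) _ _ (fun x => rfl)).symm
  have h2 : ∑ x : ZMod n, jz n ((u : ZMod n) * x) = - ∑ x : ZMod n, jz n x := by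
    rw [← sum_neg_distrib]
    refine sum_congr rfl fun x _ => ?_
    rw [jz_mul, hu, jz_cast, ha]; ring
  rw [h2] at h1
  omega

lemma sum_block {n : ℕ} (hn : Odd n) (h : ¬ IsSquare n) (c : ℤ) :
    ∑ i ∈ range n, jacobiSym (c + i) n = 0 := by
  have hn0 : n ≠ 0 := by rintro rfl; exact absurd hn (by decide)
  have : NeZero n := ⟨hn0⟩
  rw [← sum_jz hn h]
  have h1 : ∑ x : ZMod n, jz n x = ∑ x : ZMod n, jz n ((c : ZMod n) + x) :=
    (Fintype.sum_equiv (Equiv.addLeft (c : ZMod n)) _ _ (fun x => rfl)).symm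
  rw [h1]
  refine sum_bij' (fun i _ => (i : ZMod n)) (fun x _ => x.val) (fun i _ => mem_univ _)
    (fun x _ => mem_range.2 (ZMod.val_lt x)) (fun i hi => ?_) (fun x _ => ?_) (fun i _ => ?_)
  · exact ZMod.val_natCast_of_lt (mem_range.1 hi)
  · exact ZMod.natCast_zmod_val x
  · rw [← jz_cast]; push_cast; rfl

lemma jac_abs (a : ℤ) (n : ℕ) : |jacobiSym a n| ≤ 1 := by
  rcases jacobiSym.trichotomy a n with h | h | h <;> rw [h] <;> simp

/-- incomplete sums are at most the modulus -/
theorem sum_le {n : ℕ} (hn : Odd n) (h : ¬ IsSquare n) (N : ℕ) : ∀ c : ℤ,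
    |∑ i ∈ range N, jacobiSym (c + i) n| ≤ n := by
  have hn0 : 0 < n := Nat.pos_of_ne_zero (by rintro rfl; exact absurd hn (by decide))
  induction N using Nat.strong_induction_on with
  | _ N ih =>
    intro c
    by_cases hN : N ≤ n
    · calc |∑ i ∈ range N, jacobiSym (c + i) n| ≤ ∑ i ∈ range N, |jacobiSym (c + i) n| :=
          abs_sum_le_sum_abs _ _
        _ ≤ ∑ i ∈ range N, (1 : ℤ) := sum_le_sum fun i _ => jac_abs _ _
        _ = N := by simp
        _ ≤ n := by exact_mod_cast hN
    · push Not at hN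
      have e : N = n + (N - n) := by omega
      rw [e, sum_range_add, sum_block hn h, zero_add]
      have := ih (N - n) (by omega) (c + n)
      refine le_trans (le_of_eq ?_) this
      congr 1
      refine sum_congr rfl fun i _ => ?_
      push_cast
      congr 1
      ring

theorem sum_Icc_le {n : ℕ} (hn : Odd n) (h : ¬ IsSquare n) (N : ℕ) :
    |∑ D ∈ Icc (-(N : ℤ)) N, jacobiSym D n| ≤ n := by
  have h1 : ∑ D ∈ Icc (-(N : ℤ)) N, jacobiSym D n =
      ∑ i ∈ range (2 * N + 1), jacobiSym (-(N : ℤ) + i) n := by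
    refine (sum_bij (fun (i : ℕ) _ => -(N : ℤ) + i) (fun i hi => ?_) (fun i _ j _ hij => ?_)
      (fun D hD => ?_) (fun i _ => rfl)).symm
    · rw [mem_range] at hi; rw [mem_Icc]; omega
    · omega
    · rw [mem_Icc] at hD
      exact ⟨(D + N).toNat, by rw [mem_range]; omega, by omega⟩
  rw [h1]
  exact sum_le hn h _ _

end Pool.Agent.W406.TW
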