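import Mathlib
import Pool.Agent.W406.TW.Jac

set_option autoImplicit false

/-! # Frobenius traces and angles of quadratic twists -/

namespace Pool.Agent.W406.TW

open Finset

/-- The trace of Frobenius of `y² = x³ + A x + B` at an odd prime `p` of good reduction,
`- ∑_{x mod p} ((x³ + A x + B) / p)`. -/
def ap (A B : ℤ) (p : ℕ) : ℤ := -∑ x ∈ range p, jacobiSym ((x : ℤ) ^ 3 + A * x + B) p

lemma ap_eq (A B : ℤ) (p : ℕ) [NeZero p] :
    ap A B p = -∑ x : ZMod p, jz p (x ^ 3 + A * x + B) := by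
  unfold ap
  congr 1
  refine sum_bij' (fun i _ => (i : ZMod p)) (fun x _ => x.val) (fun i _ => mem_univ _)
    (fun x _ => mem_range.2 (ZMod.val_lt x)) (fun i hi => ?_) (fun x _ => ?_) (fun i _ => ?_)
  · exact ZMod.val_natCast_of_lt (mem_range.1 hi)
  · exact ZMod.natCast_zmod_val x
  · rw [← jz_cast]; push_cast; rfl

lemma not_square_prime {p : ℕ} (hp : p.Prime) : ¬ IsSquare p := by
  rintro ⟨r, hr⟩
  have h1 : r ∣ p := ⟨r, hr⟩
  rcases (Nat.dvd_prime hp).1 h1 with h | h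
  · rw [h] at hr; exact hp.one_lt.ne' (by simpa using hr)
  · rw [h] at hr
    have := hp.one_lt
    nlinarith

/-- the trace of the twist by `D` -/
theorem ap_twist (A B D : ℤ) {p : ℕ} (hp : p.Prime) (hp2 : p ≠ 2) :
    ap (A * D ^ 2) (B * D ^ 3) p = jacobiSym D p * ap A B p := by
  have : NeZero p := ⟨hp.ne_zero⟩
  have hodd : Odd p := hp.odd_of_ne_two hp2
  have := Fact.mk hp
  rw [ap_eq, ap_eq]
  by_cases hD : (D : ZMod p) = 0
  · have h1 : jacobiSym D p = 0 := by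
      rw [← jz_cast, hD, ← Int.cast_zero, jz_cast]
      exact jacobiSym.zero_left hp.one_lt
    rw [h1, zero_mul, neg_eq_zero]
    have h2 : ∀ x : ZMod p, jz p (x ^ 3 + ((A * D ^ 2 : ℤ) : ZMod p) * x + ((B * D ^ 3 : ℤ) : ZMod p)) =
        jz p x := by
      intro x
      push_cast
      rw [hD]
      have : x ^ 3 + (A : ZMod p) * 0 ^ 2 * x + (B : ZMod p) * 0 ^ 3 = x * (x * x) := by ring
      rw [this, jz_mul, jz_mul]
      have h3 : jz p x = jacobiSym (x.val : ℤ) p := rfl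
      rcases jacobiSym.trichotomy (x.val : ℤ) p with h | h | h <;> rw [h3, h] <;> norm_num
    rw [sum_congr rfl fun x _ => h2 x]
    exact sum_jz hodd (not_square_prime hp)
  · have hu : IsUnit (D : ZMod p) := Ne.isUnit hD
    obtain ⟨u, hu⟩ := hu
    have h1 : ∑ x : ZMod p, jz p (x ^ 3 + ((A * D ^ 2 : ℤ) : ZMod p) * x + ((B * D ^ 3 : ℤ) : ZMod p)) =
        ∑ x : ZMod p, jz p (((u : ZMod p) * x) ^ 3 + ((A * D ^ 2 : ℤ) : ZMod p) * ((u : ZMod p) * x) +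
          ((B * D ^ 3 : ℤ) : ZMod p)) :=
      (Fintype.sum_equiv (Units.mulLeft u) _ _ (fun x => rfl)).symm
    rw [h1, mul_neg, mul_sum]
    congr 1
    refine sum_congr rfl fun x _ => ?_
    rw [hu]
    have h2 : ((D : ZMod p) * x) ^ 3 + ((A * D ^ 2 : ℤ) : ZMod p) * ((D : ZMod p) * x) +
          ((B * D ^ 3 : ℤ) : ZMod p) = (D : ZMod p) * ((D : ZMod p) * ((D : ZMod p) *
            (x ^ 3 + (A : ZMod p) * x + (B : ZMod p)))) := by
      push_cast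
      ring
    rw [h2, jz_mul, jz_mul, jz_mul, jz_cast]
    rcases jacobiSym.trichotomy D p with h | h | h <;> rw [h] <;> ring

/-- The angle `x ∈ [0, 1]` with `a_p = 2 √p cos (π x)`; it is `1/2` at the primes dividing
`2 (4 A³ + 27 B²)`. -/
noncomputable def ang (A B : ℤ) (p : ℕ) : ℝ :=
  if (p : ℤ) ∣ 2 * (4 * A ^ 3 + 27 * B ^ 2) then 1 / 2
  else Real.arccos ((ap A B p : ℝ) / (2 * √(p : ℝ))) / Real.pi

lemma dvd_disc (A B D : ℤ) {p : ℕ} (hp : p.Prime) (hD : ¬ (p : ℤ) ∣ D) :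
    (p : ℤ) ∣ 2 * (4 * (A * D ^ 2) ^ 3 + 27 * (B * D ^ 3) ^ 2) ↔
      (p : ℤ) ∣ 2 * (4 * A ^ 3 + 27 * B ^ 2) := by
  have h1 : 2 * (4 * (A * D ^ 2) ^ 3 + 27 * (B * D ^ 3) ^ 2) =
      2 * (4 * A ^ 3 + 27 * B ^ 2) * D ^ 6 := by ring
  rw [h1]
  constructor
  · intro h
    rcases (Nat.prime_iff_prime_int.1 hp).dvd_or_dvd h with h | h
    · exact h
    · exact absurd ((Nat.prime_iff_prime_int.1 hp).dvd_of_dvd_pow h) hD
  · intro h
    exact Dvd.dvd.mul_right h _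

lemma not_dvd_of_jac {D : ℤ} {p : ℕ} (hp : p.Prime) (h : jacobiSym D p ≠ 0) : ¬ (p : ℤ) ∣ D := by
  intro hd
  apply h
  have : NeZero p := ⟨hp.ne_zero⟩
  rw [← jz_cast, (ZMod.intCast_zmod_eq_zero_iff_dvd D p).2 hd, ← Int.cast_zero, jz_cast]
  exact jacobiSym.zero_left hp.one_lt

theorem ang_one (A B D : ℤ) {p : ℕ} (hp : p.Prime) (hp2 : p ≠ 2) (h : jacobiSym D p = 1) :
    ang (A * D ^ 2) (B * D ^ 3) p = ang A B p := by
  have hD := not_dvd_of_jac hp (by rw [h]; decide : jacobiSym D p ≠ 0)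
  unfold ang
  rw [ap_twist A B D hp hp2, h, one_mul]
  by_cases hd : (p : ℤ) ∣ 2 * (4 * A ^ 3 + 27 * B ^ 2)
  · rw [if_pos hd, if_pos ((dvd_disc A B D hp hD).2 hd)]
  · rw [if_neg hd, if_neg (fun h' => hd ((dvd_disc A B D hp hD).1 h'))]

theorem ang_neg (A B D : ℤ) {p : ℕ} (hp : p.Prime) (hp2 : p ≠ 2) (h : jacobiSym D p = -1) :
    ang (A * D ^ 2) (B * D ^ 3) p = 1 - ang A B p := by
  have hD := not_dvd_of_jac hp (by rw [h]; decide : jacobiSym D p ≠ 0)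
  unfold ang
  rw [ap_twist A B D hp hp2, h]
  by_cases hd : (p : ℤ) ∣ 2 * (4 * A ^ 3 + 27 * B ^ 2)
  · rw [if_pos hd, if_pos ((dvd_disc A B D hp hD).2 hd)]; norm_num
  · rw [if_neg hd, if_neg (fun h' => hd ((dvd_disc A B D hp hD).1 h'))]
    have : (((-1 * ap A B p : ℤ)) : ℝ) / (2 * √(p : ℝ)) = -((ap A B p : ℝ) / (2 * √(p : ℝ))) := by
      push_cast; ring
    rw [this, Real.arccos_neg, sub_div, div_self Real.pi_ne_zero]

end Pool.Agent.W406.TW
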