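import Mathlib

set_option autoImplicit false

/-! # Counting maps all of whose values are taken an even number of times -/

namespace Pool.Agent.W406.TW

open Finset

variable {ι : Type*} [DecidableEq ι]

/-- number of times that `f` takes the value `i` -/
def cnt {k : ℕ} (f : Fin k → ι) (i : ι) : ℕ := ∑ j, if f j = i then 1 else 0

/-- every value is taken an even number of times -/
def EvenF {k : ℕ} (f : Fin k → ι) : Prop := ∀ i, Even (cnt f i)

/-- the maps with values in `P` all of whose values are taken an even number of times -/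
noncomputable def evens (P : Finset ι) (k : ℕ) : Finset (Fin k → ι) := by
  classical
  exact (Fintype.piFinset fun _ : Fin k => P).filter EvenF

lemma mem_evens {P : Finset ι} {k : ℕ} {f : Fin k → ι} :
    f ∈ evens P k ↔ (∀ j, f j ∈ P) ∧ EvenF f := by
  classical
  simp [evens, Fintype.mem_piFinset]

lemma cnt_snoc {k : ℕ} (g : Fin k → ι) (a i : ι) (j : Fin (k + 1)) :
    cnt (Fin.snoc (j.insertNth a g : Fin (k + 1) → ι) a : Fin (k + 2) → ι) i =
      cnt g i + 2 * (if a = i then 1 else 0) := by
  unfold cnt
  rw [Fin.sum_univ_castSucc]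
  simp only [Fin.snoc_castSucc, Fin.snoc_last]
  rw [Fin.sum_univ_succAbove _ j]
  simp only [Fin.insertNth_apply_same, Fin.insertNth_apply_succAbove]
  ring

lemma evens_zero (P : Finset ι) : (evens P 0).card = 1 := by
  classical
  rw [card_eq_one]
  refine ⟨fun j => j.elim0, ?_⟩
  ext f
  rw [mem_evens, mem_singleton]
  constructor
  · intro _; exact Subsingleton.elim _ _
  · rintro rfl
    exact ⟨fun j => j.elim0, fun i => by simp [cnt]⟩

lemma exists_pair {k : ℕ} (f : Fin (k + 2) → ι) (hf : EvenF f) :
    ∃ j : Fin (k + 1), f j.castSucc = f (Fin.last (k + 1)) := by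
  by_contra h
  push Not at h
  have h1 := hf (f (Fin.last (k + 1)))
  have h2 : cnt f (f (Fin.last (k + 1))) = 1 := by
    unfold cnt
    rw [Fin.sum_univ_castSucc]
    simp [h]
  rw [h2] at h1
  exact absurd h1 (by decide)

lemma evens_step (P : Finset ι) (k : ℕ) :
    (evens P (k + 2)).card ≤ (k + 1) * P.card * (evens P k).card := by
  classical
  have hsub : evens P (k + 2) ⊆
      ((univ : Finset (Fin (k + 1))) ×ˢ (P ×ˢ evens P k)).image
        (fun z => (Fin.snoc (z.1.insertNth z.2.1 z.2.2 : Fin (k + 1) → ι) z.2.1 : Fin (k + 2) → ι)) := by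
    intro f hf
    rw [mem_evens] at hf
    obtain ⟨hP, hE⟩ := hf
    obtain ⟨j, hj⟩ := exists_pair f hE
    set a : ι := f (Fin.last (k + 1)) with ha
    set f' : Fin (k + 1) → ι := fun i => f i.castSucc with hf'
    set g : Fin k → ι := fun i => f' (j.succAbove i) with hg
    have hfeq : (Fin.snoc (j.insertNth a g : Fin (k + 1) → ι) a : Fin (k + 2) → ι) = f := by
      funext i
      refine Fin.lastCases ?_ (fun i => ?_) i
      · simp only [Fin.snoc_last]; exact ha
      · simp only [Fin.snoc_castSucc]
        rcases Fin.eq_self_or_eq_succAbove j i with h | ⟨l, h⟩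
        · subst h
          simp only [Fin.insertNth_apply_same]
          exact hj.symm
        · subst h
          simp only [Fin.insertNth_apply_succAbove]
          rfl
    refine mem_image.2 ⟨(j, (a, g)), ?_, hfeq⟩
    refine mem_product.2 ⟨mem_univ _, mem_product.2 ⟨hP _, mem_evens.2 ⟨fun i => hP _, fun i => ?_⟩⟩⟩
    have h1 := hE i
    rw [← hfeq, cnt_snoc] at h1
    rw [Nat.even_add] at h1
    exact h1.2 ⟨_, by ring⟩
  calc (evens P (k + 2)).card ≤ _ := card_le_card hsub
    _ ≤ _ := card_image_le
    _ = (k + 1) * P.card * (evens P k).card := by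
        rw [card_product, card_product, card_univ, Fintype.card_fin]; ring

theorem evens_le (P : Finset ι) (m : ℕ) :
    (evens P (2 * m)).card ≤ (2 * m) ^ m * P.card ^ m := by
  induction m with
  | zero => simp [evens_zero]
  | succ m ih =>
    have h := evens_step P (2 * m)
    have e : 2 * (m + 1) = 2 * m + 2 := by ring
    rw [e]
    calc (evens P (2 * m + 2)).card ≤ (2 * m + 1) * P.card * (evens P (2 * m)).card := h
      _ ≤ (2 * m + 1) * P.card * ((2 * m) ^ m * P.card ^ m) := Nat.mul_le_mul_left _ ih
      _ ≤ (2 * m + 2) * P.card * ((2 * m + 2) ^ m * P.card ^ m) := by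
          gcongr <;> omega
      _ = (2 * m + 2) ^ (m + 1) * P.card ^ (m + 1) := by ring

end Pool.Agent.W406.TW
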