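import Mathlib
import Pool.Agent.W406.TW.Even
import Pool.Agent.W406.TW.Jac

set_option autoImplicit false

/-! # Moments of sums of Jacobi symbols `(D | n i)` over all `|D| ≤ N` -/

namespace Pool.Agent.W406.TW

open Finset

variable {ι : Type*} [DecidableEq ι]

/-- no product of the `n i`, `i ∈ P`, is a square for a trivial reason only -/
def Indep (P : Finset ι) (n : ι → ℕ) : Prop :=
  ∀ (k : ℕ) (f : Fin k → ι), (∀ j, f j ∈ P) → IsSquare (∏ j, n (f j)) → EvenF f

/-- the twisted sum -/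
noncomputable def SD (P : Finset ι) (w : ι → ℝ) (n : ι → ℕ) (D : ℤ) : ℝ :=
  ∑ i ∈ P, w i * (jacobiSym D (n i) : ℝ)

lemma jac_prod (D : ℤ) {κ : Type*} [DecidableEq κ] (s : Finset κ) (n : κ → ℕ) (hn : ∀ j ∈ s, n j ≠ 0) :
    jacobiSym D (∏ j ∈ s, n j) = ∏ j ∈ s, jacobiSym D (n j) := by
  induction s using Finset.induction_on with
  | empty => simp
  | insert a s ha ih =>
    rw [prod_insert ha, prod_insert ha, jacobiSym.mul_right', ih (fun j hj => hn j (mem_insert_of_mem hj))]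
    · exact hn a (mem_insert_self _ _)
    · exact prod_ne_zero_iff.2 fun j hj => hn j (mem_insert_of_mem hj)

lemma SD_pow (P : Finset ι) (w : ι → ℝ) (n : ι → ℕ) (hn : ∀ i ∈ P, n i ≠ 0) (D : ℤ) (k : ℕ) :
    SD P w n D ^ k = ∑ f ∈ Fintype.piFinset (fun _ : Fin k => P),
      (∏ j, w (f j)) * (jacobiSym D (∏ j, n (f j)) : ℝ) := by
  have h := Finset.prod_univ_sum (fun _ : Fin k => P) (fun _ (i : ι) => w i * (jacobiSym D (n i) : ℝ))
  rw [prod_const, card_univ, Fintype.card_fin] at h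
  unfold SD
  rw [h]
  refine sum_congr rfl fun f hf => ?_
  rw [prod_mul_distrib]
  congr 1
  rw [jac_prod D univ (fun j => n (f j)) (fun j _ => hn _ (Fintype.mem_piFinset.1 hf j))]
  push_cast
  rfl

theorem moment (P : Finset ι) (w : ι → ℝ) (n : ι → ℕ) (N m y : ℕ)
    (hodd : ∀ i ∈ P, Odd (n i)) (hy : ∀ i ∈ P, n i ≤ y) (hind : Indep P n)
    (hw : ∀ i ∈ P, |w i| ≤ 1) :
    ∑ D ∈ Icc (-(N : ℤ)) N, SD P w n D ^ (2 * m) ≤
      ((2 * m : ℕ) : ℝ) ^ m * (P.card : ℝ) ^ m * (2 * N + 1) + (P.card : ℝ) ^ (2 * m) * (y : ℝ) ^ (2 * m) := by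
  classical
  have hn : ∀ i ∈ P, n i ≠ 0 := fun i hi h0 => by
    have := hodd i hi
    rw [h0] at this
    exact absurd this (by decide)
  have h1 : ∑ D ∈ Icc (-(N : ℤ)) N, SD P w n D ^ (2 * m) =
      ∑ f ∈ Fintype.piFinset (fun _ : Fin (2 * m) => P),
        (∏ j, w (f j)) * ((∑ D ∈ Icc (-(N : ℤ)) N, jacobiSym D (∏ j, n (f j)) : ℤ) : ℝ) := by
    simp_rw [SD_pow P w n hn]
    rw [sum_comm]
    refine sum_congr rfl fun f _ => ?_
    rw [← mul_sum]
    push_cast
    rfl
  rw [h1]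
  have hwf : ∀ f ∈ Fintype.piFinset (fun _ : Fin (2 * m) => P), |∏ j, w (f j)| ≤ 1 := by
    intro f hf
    rw [abs_prod]
    exact prod_le_one (fun j _ => abs_nonneg _) fun j _ => hw _ (Fintype.mem_piFinset.1 hf j)
  rw [← sum_filter_add_sum_filter_not (Fintype.piFinset (fun _ : Fin (2 * m) => P)) EvenF]
  apply add_le_add
  · have hcard : (((Fintype.piFinset (fun _ : Fin (2 * m) => P)).filter EvenF).card : ℝ) ≤
        ((2 * m : ℕ) : ℝ) ^ m * (P.card : ℝ) ^ m := by
      have := evens_le P m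
      unfold evens at this
      have h2 : (((Fintype.piFinset (fun _ : Fin (2 * m) => P)).filter EvenF).card : ℝ) ≤
        (((2 * m) ^ m * P.card ^ m : ℕ) : ℝ) := by
        refine le_trans (le_of_eq ?_) (Nat.cast_le.2 this)
        norm_cast
      refine le_trans h2 (le_of_eq ?_)
      push_cast
      rfl
    calc ∑ f ∈ (Fintype.piFinset (fun _ : Fin (2 * m) => P)).filter EvenF,
          (∏ j, w (f j)) * ((∑ D ∈ Icc (-(N : ℤ)) N, jacobiSym D (∏ j, n (f j)) : ℤ) : ℝ)
        ≤ ∑ f ∈ (Fintype.piFinset (fun _ : Fin (2 * m) => P)).filter EvenF, ((2 : ℝ) * N + 1) := by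
          apply sum_le_sum
          intro f hf
          refine le_trans (le_abs_self _) ?_
          rw [abs_mul]
          have h3 : |((∑ D ∈ Icc (-(N : ℤ)) N, jacobiSym D (∏ j, n (f j)) : ℤ) : ℝ)| ≤ 2 * N + 1 := by
            rw [← Int.cast_abs]
            have h4 : |∑ D ∈ Icc (-(N : ℤ)) N, jacobiSym D (∏ j, n (f j))| ≤ (2 * N + 1 : ℤ) := by
              calc |∑ D ∈ Icc (-(N : ℤ)) N, jacobiSym D (∏ j, n (f j))|
                  ≤ ∑ D ∈ Icc (-(N : ℤ)) N, |jacobiSym D (∏ j, n (f j))| := abs_sum_le_sum_abs _ _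
                _ ≤ ∑ D ∈ Icc (-(N : ℤ)) N, (1 : ℤ) := sum_le_sum fun D _ => jac_abs _ _
                _ = 2 * N + 1 := by
                    rw [sum_const, Int.card_Icc]
                    simp
                    omega
            exact_mod_cast h4
          calc |∏ j, w (f j)| * |((∑ D ∈ Icc (-(N : ℤ)) N, jacobiSym D (∏ j, n (f j)) : ℤ) : ℝ)|
              ≤ 1 * (2 * N + 1) := mul_le_mul (hwf f (mem_filter.1 hf).1) h3 (abs_nonneg _) zero_le_one
            _ = 2 * N + 1 := one_mul _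
      _ = (((Fintype.piFinset (fun _ : Fin (2 * m) => P)).filter EvenF).card : ℝ) * (2 * N + 1) := by
          rw [sum_const, nsmul_eq_mul]
      _ ≤ _ := mul_le_mul_of_nonneg_right hcard (by positivity)
  · have hcard : (((Fintype.piFinset (fun _ : Fin (2 * m) => P)).filter (fun f => ¬ EvenF f)).card : ℝ) ≤
        (P.card : ℝ) ^ (2 * m) := by
      have : ((Fintype.piFinset (fun _ : Fin (2 * m) => P)).filter (fun f => ¬ EvenF f)).card ≤
          P.card ^ (2 * m) := by
        refine le_trans (card_filter_le _ _) (le_of_eq ?_)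
        rw [Fintype.card_piFinset]
        simp
      exact_mod_cast this
    calc ∑ f ∈ (Fintype.piFinset (fun _ : Fin (2 * m) => P)).filter (fun f => ¬ EvenF f),
          (∏ j, w (f j)) * ((∑ D ∈ Icc (-(N : ℤ)) N, jacobiSym D (∏ j, n (f j)) : ℤ) : ℝ)
        ≤ ∑ f ∈ (Fintype.piFinset (fun _ : Fin (2 * m) => P)).filter (fun f => ¬ EvenF f),
            (y : ℝ) ^ (2 * m) := by
          apply sum_le_sum
          intro f hf
          obtain ⟨hf1, hf2⟩ := mem_filter.1 hf
          rw [Fintype.mem_piFinset] at hf1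
          refine le_trans (le_abs_self _) ?_
          rw [abs_mul]
          have hns : ¬ IsSquare (∏ j, n (f j)) := fun hs => hf2 (hind _ f hf1 hs)
          have ho : Odd (∏ j, n (f j)) := by
            apply Finset.prod_induction _ Odd (fun a b ha hb => ha.mul hb) odd_one
            intro j _
            exact hodd _ (hf1 j)
          have h3 : |((∑ D ∈ Icc (-(N : ℤ)) N, jacobiSym D (∏ j, n (f j)) : ℤ) : ℝ)| ≤
              ((∏ j, n (f j) : ℕ) : ℝ) := by
            rw [← Int.cast_abs]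
            exact_mod_cast sum_Icc_le ho hns N
          have h4 : ((∏ j, n (f j) : ℕ) : ℝ) ≤ (y : ℝ) ^ (2 * m) := by
            have : ∏ j, n (f j) ≤ y ^ (2 * m) := by
              calc ∏ j, n (f j) ≤ ∏ _j : Fin (2 * m), y := prod_le_prod' fun j _ => hy _ (hf1 j)
                _ = y ^ (2 * m) := by simp
            exact_mod_cast this
          calc |∏ j, w (f j)| * |((∑ D ∈ Icc (-(N : ℤ)) N, jacobiSym D (∏ j, n (f j)) : ℤ) : ℝ)|
              ≤ 1 * (y : ℝ) ^ (2 * m) :=
                mul_le_mul (hwf f (Fintype.mem_piFinset.2 hf1)) (h3.trans h4) (abs_nonneg _) zero_le_one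
            _ = (y : ℝ) ^ (2 * m) := one_mul _
      _ = (((Fintype.piFinset (fun _ : Fin (2 * m) => P)).filter (fun f => ¬ EvenF f)).card : ℝ) *
            (y : ℝ) ^ (2 * m) := by
          rw [sum_const, nsmul_eq_mul]
      _ ≤ _ := mul_le_mul_of_nonneg_right hcard (by positivity)

/-- few `D` have a large sum -/
theorem few (P : Finset ι) (w : ι → ℝ) (n : ι → ℕ) (N m y : ℕ) (V : ℝ) (hV : 0 < V)
    (hodd : ∀ i ∈ P, Odd (n i)) (hy : ∀ i ∈ P, n i ≤ y) (hind : Indep P n)
    (hw : ∀ i ∈ P, |w i| ≤ 1) :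
    (((Icc (-(N : ℤ)) N).filter (fun D => V < |SD P w n D|)).card : ℝ) * V ^ (2 * m) ≤
      ((2 * m : ℕ) : ℝ) ^ m * (P.card : ℝ) ^ m * (2 * N + 1) + (P.card : ℝ) ^ (2 * m) * (y : ℝ) ^ (2 * m) := by
  refine le_trans ?_ (moment P w n N m y hodd hy hind hw)
  calc (((Icc (-(N : ℤ)) N).filter (fun D => V < |SD P w n D|)).card : ℝ) * V ^ (2 * m)
      = ∑ D ∈ (Icc (-(N : ℤ)) N).filter (fun D => V < |SD P w n D|), V ^ (2 * m) := by
        rw [sum_const, nsmul_eq_mul]
    _ ≤ ∑ D ∈ (Icc (-(N : ℤ)) N).filter (fun D => V < |SD P w n D|), SD P w n D ^ (2 * m) := by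
        apply sum_le_sum
        intro D hD
        have h := (mem_filter.1 hD).2
        calc V ^ (2 * m) ≤ |SD P w n D| ^ (2 * m) := pow_le_pow_left₀ hV.le h.le _
          _ = SD P w n D ^ (2 * m) := by rw [pow_mul, sq_abs, ← pow_mul]
    _ ≤ _ := by
        apply sum_le_sum_of_subset_of_nonneg (filter_subset _ _)
        intro D _ _
        rw [pow_mul]
        positivity

end Pool.Agent.W406.TW
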