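import Mathlib
import Pool.Agent.W406.TW.Mom

set_option autoImplicit false

/-! # Square root cancellation for almost all `D`, uniformly over small families of sums -/

namespace Pool.Agent.W406.TW

open Finset

variable {ι : Type*} [DecidableEq ι]

lemma one (P : Finset ι) (w : ι → ℝ) (n : ι → ℕ) (N y s : ℕ) (ε c : ℝ) (hε : 0 < ε) (hN : 1 ≤ N)
    (hy3 : 3 ≤ y) (hlog : 2 * Real.log N ≤ (y : ℝ) ^ ε) (hyc : Real.log y ≤ c * Real.log N)
    (hP : P.card ≤ y) (hodd : ∀ i ∈ P, Odd (n i)) (hy : ∀ i ∈ P, n i ≤ y ^ s) (hind : Indep P n)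
    (hw : ∀ i ∈ P, |w i| ≤ 1) :
    (((Icc (-(N : ℤ)) N).filter
      (fun D => √(P.card : ℝ) * (y : ℝ) ^ ε < |SD P w n D|)).card : ℝ) ≤
      4 * N * Real.exp (-(ε * (1 / (2 * s + 1) - c) * Real.log N)) := by
  classical
  have hN1 : (1 : ℝ) ≤ N := by exact_mod_cast hN
  have hN0 : (0 : ℝ) < N := by linarith
  have hL0 : 0 ≤ Real.log N := Real.log_nonneg hN1
  have hy3' : (3 : ℝ) ≤ y := by exact_mod_cast hy3
  have hy0 : (0 : ℝ) < y := by linarith
  have hly : 1 ≤ Real.log y := by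
    rw [Real.le_log_iff_exp_le hy0]
    linarith [Real.exp_one_lt_d9]
  rcases P.eq_empty_or_nonempty with hPe | hPn
  · subst hPe
    have : (Icc (-(N : ℤ)) N).filter
      (fun D => √((∅ : Finset ι).card : ℝ) * (y : ℝ) ^ ε < |SD ∅ w n D|) = ∅ := by
      apply filter_eq_empty_iff.2
      intro D _
      simp [SD]
    rw [this, card_empty, Nat.cast_zero]
    positivity
  have hp1 : (1 : ℝ) ≤ P.card := by exact_mod_cast hPn.card_pos
  have hp0 : (0 : ℝ) < P.card := by linarith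
  have hs0 : (0 : ℝ) < 2 * s + 1 := by positivity
  set m : ℕ := ⌊Real.log N / ((2 * s + 1) * Real.log y)⌋₊ with hm
  have hden : 0 < (2 * s + 1) * Real.log y := by positivity
  have hm1 : (m : ℝ) * ((2 * s + 1) * Real.log y) ≤ Real.log N := by
    have := Nat.floor_le (a := Real.log N / ((2 * s + 1) * Real.log y)) (by positivity)
    rwa [le_div_iff₀ hden] at this
  have hm2 : Real.log N < ((m : ℝ) + 1) * ((2 * s + 1) * Real.log y) := by
    have := Nat.lt_floor_add_one (Real.log N / ((2 * s + 1) * Real.log y))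
    rwa [div_lt_iff₀ hden] at this
  have hm3 : (m : ℝ) ≤ Real.log N := by
    have h1 : (1 : ℝ) ≤ (2 * s + 1) * Real.log y := by
      have : (1 : ℝ) ≤ 2 * s + 1 := by
        have : (0 : ℝ) ≤ s := Nat.cast_nonneg s
        linarith
      nlinarith
    have h2 : (0 : ℝ) ≤ m := Nat.cast_nonneg m
    nlinarith
  set F := (Icc (-(N : ℤ)) N).filter (fun D => √(P.card : ℝ) * (y : ℝ) ^ ε < |SD P w n D|) with hF
  have hyε : 0 < (y : ℝ) ^ ε := Real.rpow_pos_of_pos hy0 ε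
  have hfew := few P w n N m (y ^ s) (√(P.card : ℝ) * (y : ℝ) ^ ε) (by positivity) hodd hy hind hw
  rw [← hF] at hfew
  -- simplify the powers
  have hV : (√(P.card : ℝ) * (y : ℝ) ^ ε) ^ (2 * m) = (P.card : ℝ) ^ m * ((y : ℝ) ^ ε) ^ (2 * m) := by
    rw [mul_pow, pow_mul, Real.sq_sqrt hp0.le]
  have hyy : ((y ^ s : ℕ) : ℝ) ^ (2 * m) = (y : ℝ) ^ (2 * s * m) := by
    push_cast
    rw [← pow_mul]
    congr 1
    ring
  rw [hV, hyy] at hfew
  set Z : ℝ := (y : ℝ) ^ ε with hZ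
  have hpm : 0 < (P.card : ℝ) ^ m := by positivity
  have h1 : (F.card : ℝ) * Z ^ (2 * m) ≤
      ((2 * m : ℕ) : ℝ) ^ m * (2 * N + 1) + (P.card : ℝ) ^ m * (y : ℝ) ^ (2 * s * m) := by
    have h2 : (P.card : ℝ) ^ m * ((F.card : ℝ) * Z ^ (2 * m)) ≤ (P.card : ℝ) ^ m *
        (((2 * m : ℕ) : ℝ) ^ m * (2 * N + 1) + (P.card : ℝ) ^ m * (y : ℝ) ^ (2 * s * m)) := by
      calc (P.card : ℝ) ^ m * ((F.card : ℝ) * Z ^ (2 * m))
          = (F.card : ℝ) * ((P.card : ℝ) ^ m * Z ^ (2 * m)) := by ring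
        _ ≤ _ := hfew
        _ = _ := by rw [pow_mul]; ring
    exact le_of_mul_le_mul_left h2 hpm
  have h3 : (P.card : ℝ) ^ m * (y : ℝ) ^ (2 * s * m) ≤ N := by
    calc (P.card : ℝ) ^ m * (y : ℝ) ^ (2 * s * m) ≤ (y : ℝ) ^ m * (y : ℝ) ^ (2 * s * m) := by
          apply mul_le_mul_of_nonneg_right _ (by positivity)
          exact pow_le_pow_left₀ hp0.le (by exact_mod_cast hP) m
      _ = Real.exp ((m : ℝ) * ((2 * s + 1) * Real.log y)) := by
          rw [← pow_add]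
          rw [show (m : ℝ) * ((2 * s + 1) * Real.log y) = ((m + 2 * s * m : ℕ) : ℝ) * Real.log y by
            push_cast; ring]
          rw [Real.exp_nat_mul, Real.exp_log hy0]
      _ ≤ Real.exp (Real.log N) := Real.exp_le_exp.2 hm1
      _ = N := Real.exp_log hN0
  have h4 : ((2 * m : ℕ) : ℝ) ^ m ≤ Z ^ m := by
    apply pow_le_pow_left₀ (by positivity)
    push_cast
    linarith
  have hZ1 : 1 ≤ Z := Real.one_le_rpow (by linarith) hε.le
  have h5 : (1 : ℝ) ≤ Z ^ m := one_le_pow₀ hZ1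
  have h6 : (F.card : ℝ) * Z ^ m ≤ 4 * N := by
    have h7 : (F.card : ℝ) * Z ^ m * Z ^ m ≤ 4 * N * Z ^ m := by
      calc (F.card : ℝ) * Z ^ m * Z ^ m = (F.card : ℝ) * Z ^ (2 * m) := by
            rw [two_mul, pow_add]; ring
        _ ≤ _ := h1
        _ ≤ Z ^ m * (3 * N) + N := by
            apply add_le_add _ h3
            apply mul_le_mul h4 _ (by positivity) (by positivity)
            linarith
        _ ≤ 4 * N * Z ^ m := by nlinarith
    exact le_of_mul_le_mul_right h7 (by positivity)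
  have h8 : Real.exp (ε * (1 / (2 * s + 1) - c) * Real.log N) ≤ Z ^ m := by
    have e1 : Z ^ m = Real.exp (ε * ((m : ℝ) * Real.log y)) := by
      rw [hZ, Real.rpow_def_of_pos hy0, ← Real.exp_nat_mul]
      congr 1
      ring
    rw [e1]
    apply Real.exp_le_exp.2
    rw [mul_assoc]
    apply mul_le_mul_of_nonneg_left _ hε.le
    have e2 : Real.log N / (2 * s + 1) < ((m : ℝ) + 1) * Real.log y := by
      rw [div_lt_iff₀ hs0]
      linarith
    have e3 : (1 / (2 * s + 1) - c) * Real.log N = Real.log N / (2 * s + 1) - c * Real.log N := by ring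
    rw [e3]
    linarith
  rw [Real.exp_neg, ← div_eq_mul_inv, le_div_iff₀ (Real.exp_pos _)]
  calc (F.card : ℝ) * Real.exp (ε * (1 / (2 * s + 1) - c) * Real.log N) ≤ (F.card : ℝ) * Z ^ m :=
        mul_le_mul_of_nonneg_left h8 (Nat.cast_nonneg _)
    _ ≤ 4 * N := h6

open Classical in
/-- For all but few `|D| ≤ N` all the sums of a family of polynomial size are small. -/
theorem uniform (s : ℕ) (κ ε : ℝ) (hκ : 0 ≤ κ) (hε : 0 < ε) :
    ∃ A c : ℝ, 0 < A ∧ 0 < c ∧ ∃ N₀ : ℕ, ∀ N : ℕ, N₀ ≤ N →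
      ∀ (ι α : Type) [DecidableEq ι] (Λ : ℕ → Finset α) (P : ℕ → α → Finset ι)
        (w : ℕ → α → ι → ℝ) (n : ℕ → α → ι → ℕ),
        (∀ y : ℕ, (Real.log N) ^ A ≤ y → (y : ℝ) ≤ (N : ℝ) ^ c → ((Λ y).card : ℝ) ≤ (y : ℝ) ^ κ ∧
          ∀ l ∈ Λ y, (P y l).card ≤ y ∧ (∀ i ∈ P y l, Odd (n y l i)) ∧ (∀ i ∈ P y l, n y l i ≤ y ^ s) ∧
            Indep (P y l) (n y l) ∧ ∀ i ∈ P y l, |w y l i| ≤ 1) →
        (((Icc (-(N : ℤ)) N).filter (fun D => ∃ y : ℕ, (Real.log N) ^ A ≤ y ∧ (y : ℝ) ≤ (N : ℝ) ^ c ∧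
          ∃ l ∈ Λ y, √((P y l).card : ℝ) * (y : ℝ) ^ ε < |SD (P y l) (w y l) (n y l) D|)).card : ℝ) ≤
          (N : ℝ) ^ (1 - c) := by
  set c : ℝ := min (1 / (4 * s + 2)) (ε / ((4 * s + 2) * (2 * (2 + κ)))) with hc
  have hs0 : (0 : ℝ) < 4 * s + 2 := by positivity
  have hc0 : 0 < c := lt_min (by positivity) (by positivity)
  have hc1 : c ≤ 1 / (4 * s + 2) := min_le_left _ _
  have hc2 : c * (2 + κ) ≤ ε / ((4 * s + 2) * 2) := by
    have h : c ≤ ε / ((4 * s + 2) * (2 * (2 + κ))) := min_le_right _ _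
    calc c * (2 + κ) ≤ ε / ((4 * s + 2) * (2 * (2 + κ))) * (2 + κ) :=
          mul_le_mul_of_nonneg_right h (by positivity)
      _ = ε / ((4 * s + 2) * 2) := by field_simp
  refine ⟨2 / ε + 1, c, by positivity, hc0, ?_⟩
  have hlim := (Real.tendsto_log_atTop.comp tendsto_natCast_atTop_atTop).eventually_ge_atTop
    (max 3 ((Real.log 4) * ((4 * s + 2) * 2) / ε))
  obtain ⟨N₀, hN₀⟩ := Filter.eventually_atTop.1 (hlim.and (Filter.eventually_ge_atTop 1))
  refine ⟨N₀, fun N hN ι α _ Λ P w n H => ?_⟩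
  obtain ⟨hL, hN1⟩ := hN₀ N hN
  simp only [Function.comp_apply] at hL
  have hL3 : 3 ≤ Real.log N := le_trans (le_max_left _ _) hL
  have hL4 : (Real.log 4) * ((4 * s + 2) * 2) / ε ≤ Real.log N := le_trans (le_max_right _ _) hL
  have hN1' : (1 : ℝ) ≤ N := by exact_mod_cast hN1
  have hN0 : (0 : ℝ) < N := by linarith
  -- the union bound
  set Y : Finset ℕ := (Icc 1 ⌊(N : ℝ) ^ c⌋₊).filter (fun y => (Real.log N) ^ (2 / ε + 1) ≤ (y : ℝ) ∧
    (y : ℝ) ≤ (N : ℝ) ^ c) with hY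
  have hsub : (Icc (-(N : ℤ)) N).filter (fun D => ∃ y : ℕ, (Real.log N) ^ (2 / ε + 1) ≤ y ∧
      (y : ℝ) ≤ (N : ℝ) ^ c ∧
      ∃ l ∈ Λ y, √((P y l).card : ℝ) * (y : ℝ) ^ ε < |SD (P y l) (w y l) (n y l) D|) ⊆
      Y.biUnion (fun y => (Λ y).biUnion (fun l => (Icc (-(N : ℤ)) N).filter
        (fun D => √((P y l).card : ℝ) * (y : ℝ) ^ ε < |SD (P y l) (w y l) (n y l) D|))) := by
    intro D hD
    obtain ⟨hD1, y, hy1, hy2, l, hl, hlt⟩ := mem_filter.1 hD
    have hpos : (0 : ℝ) < y := lt_of_lt_of_le (Real.rpow_pos_of_pos (by linarith) _) hy1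
    refine mem_biUnion.2 ⟨y, mem_filter.2 ⟨mem_Icc.2 ⟨?_, Nat.le_floor hy2⟩, hy1, hy2⟩,
      mem_biUnion.2 ⟨l, hl, mem_filter.2 ⟨hD1, hlt⟩⟩⟩
    have : 0 < y := by exact_mod_cast hpos
    omega
  set Q : ℝ := 4 * N * Real.exp (-(ε / (4 * s + 2) * Real.log N)) with hQ
  have hQ0 : 0 ≤ Q := by positivity
  have hone : ∀ y ∈ Y, ∀ l ∈ Λ y, (((Icc (-(N : ℤ)) N).filter
        (fun D => √((P y l).card : ℝ) * (y : ℝ) ^ ε < |SD (P y l) (w y l) (n y l) D|)).card : ℝ) ≤ Q := by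
    intro y hy l hl
    obtain ⟨_, hy1, hy2⟩ := mem_filter.1 hy
    obtain ⟨h1, h2, h3, h4, h5⟩ := (H y hy1 hy2).2 l hl
    have hLε : (Real.log N) ^ 2 ≤ (y : ℝ) ^ ε := by
      calc (Real.log N) ^ 2 = (Real.log N) ^ (2 : ℝ) := by norm_num
        _ ≤ (Real.log N) ^ (2 + ε) := Real.rpow_le_rpow_of_exponent_le (by linarith) (by linarith)
        _ = ((Real.log N) ^ (2 / ε + 1)) ^ ε := by
            rw [← Real.rpow_mul (by linarith), add_mul]
            rw [div_mul_cancel₀ _ hε.ne', one_mul]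
        _ ≤ (y : ℝ) ^ ε := Real.rpow_le_rpow (by positivity) hy1 hε.le
    have hy0 : (0 : ℝ) < y := lt_of_lt_of_le (Real.rpow_pos_of_pos (by linarith) _) hy1
    have hly : Real.log y ≤ c * Real.log N := by
      rw [← Real.log_rpow hN0]
      exact Real.log_le_log hy0 hy2
    have hy3 : 3 ≤ y := by
      have h6 : (3 : ℝ) ≤ y := by
        calc (3 : ℝ) ≤ Real.log N := hL3
          _ = (Real.log N) ^ (1 : ℝ) := (Real.rpow_one _).symm
          _ ≤ (Real.log N) ^ (2 / ε + 1) := Real.rpow_le_rpow_of_exponent_le (by linarith) (by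
              have : 0 < 2 / ε := by positivity
              linarith)
          _ ≤ y := hy1
      exact_mod_cast h6
    refine le_trans (one (P y l) (w y l) (n y l) N y s ε c hε hN1 hy3 ?_ hly h1 h2 h3 h4 h5) ?_
    · nlinarith
    · rw [hQ]
      apply mul_le_mul_of_nonneg_left _ (by positivity)
      apply Real.exp_le_exp.2
      apply neg_le_neg
      apply mul_le_mul_of_nonneg_right _ (by linarith)
      have e1 : (1 : ℝ) / (4 * s + 2) ≤ 1 / (2 * s + 1) - c := by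
        have : (1 : ℝ) / (2 * s + 1) = 2 * (1 / (4 * s + 2)) := by
          field_simp
          ring
        rw [this]
        linarith
      calc ε / (4 * s + 2) = ε * (1 / (4 * s + 2)) := by ring
        _ ≤ ε * (1 / (2 * s + 1) - c) := mul_le_mul_of_nonneg_left e1 hε.le
  have hYc : (Y.card : ℝ) ≤ (N : ℝ) ^ c := by
    calc (Y.card : ℝ) ≤ ((Icc 1 ⌊(N : ℝ) ^ c⌋₊).card : ℝ) := by exact_mod_cast card_filter_le _ _
      _ = (⌊(N : ℝ) ^ c⌋₊ : ℝ) := by rw [Nat.card_Icc]; simp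
      _ ≤ (N : ℝ) ^ c := Nat.floor_le (by positivity)
  have hNc1 : (1 : ℝ) ≤ (N : ℝ) ^ c := Real.one_le_rpow hN1' hc0.le
  have htot : (((Icc (-(N : ℤ)) N).filter (fun D => ∃ y : ℕ, (Real.log N) ^ (2 / ε + 1) ≤ y ∧
      (y : ℝ) ≤ (N : ℝ) ^ c ∧
      ∃ l ∈ Λ y, √((P y l).card : ℝ) * (y : ℝ) ^ ε < |SD (P y l) (w y l) (n y l) D|)).card : ℝ) ≤
      (N : ℝ) ^ c * (((N : ℝ) ^ c) ^ κ * Q) := by
    calc _ ≤ ((Y.biUnion (fun y => (Λ y).biUnion (fun l => (Icc (-(N : ℤ)) N).filter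
        (fun D => √((P y l).card : ℝ) * (y : ℝ) ^ ε < |SD (P y l) (w y l) (n y l) D|)))).card : ℝ) := by
          exact_mod_cast card_le_card hsub
      _ ≤ ∑ y ∈ Y, (((Λ y).biUnion (fun l => (Icc (-(N : ℤ)) N).filter
        (fun D => √((P y l).card : ℝ) * (y : ℝ) ^ ε < |SD (P y l) (w y l) (n y l) D|))).card : ℝ) := by
          exact_mod_cast card_biUnion_le
      _ ≤ ∑ y ∈ Y, (((N : ℝ) ^ c) ^ κ * Q) := by
          apply sum_le_sum
          intro y hy
          obtain ⟨hy0, hy1, hy2⟩ := mem_filter.1 hy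
          calc (((Λ y).biUnion (fun l => (Icc (-(N : ℤ)) N).filter
              (fun D => √((P y l).card : ℝ) * (y : ℝ) ^ ε < |SD (P y l) (w y l) (n y l) D|))).card : ℝ)
              ≤ ∑ l ∈ Λ y, (((Icc (-(N : ℤ)) N).filter
              (fun D => √((P y l).card : ℝ) * (y : ℝ) ^ ε < |SD (P y l) (w y l) (n y l) D|)).card : ℝ) := by
                exact_mod_cast card_biUnion_le
            _ ≤ ∑ l ∈ Λ y, Q := sum_le_sum fun l hl => hone y hy l hl
            _ = ((Λ y).card : ℝ) * Q := by rw [sum_const, nsmul_eq_mul]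
            _ ≤ ((N : ℝ) ^ c) ^ κ * Q := by
                apply mul_le_mul_of_nonneg_right _ hQ0
                refine le_trans (H y hy1 hy2).1 ?_
                exact Real.rpow_le_rpow (Nat.cast_nonneg _) hy2 hκ
      _ = (Y.card : ℝ) * (((N : ℝ) ^ c) ^ κ * Q) := by rw [sum_const, nsmul_eq_mul]
      _ ≤ _ := mul_le_mul_of_nonneg_right hYc (by positivity)
  refine le_trans htot ?_
  have e1 : (N : ℝ) ^ c * (((N : ℝ) ^ c) ^ κ * Q) =
      4 * Real.exp ((1 + c * (1 + κ) - ε / (4 * s + 2)) * Real.log N) := by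
    rw [hQ, ← Real.rpow_mul hN0.le, Real.rpow_def_of_pos hN0, Real.rpow_def_of_pos hN0]
    have : (N : ℝ) = Real.exp (Real.log N) := (Real.exp_log hN0).symm
    calc Real.exp (Real.log ↑N * c) * (Real.exp (Real.log ↑N * (c * κ)) *
          (4 * (N : ℝ) * Real.exp (-(ε / (4 * s + 2) * Real.log ↑N))))
        = 4 * (Real.exp (Real.log ↑N * c) * Real.exp (Real.log ↑N * (c * κ)) *
          (N : ℝ) * Real.exp (-(ε / (4 * s + 2) * Real.log ↑N))) := by ring
      _ = 4 * (Real.exp (Real.log ↑N * c) * Real.exp (Real.log ↑N * (c * κ)) *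
          Real.exp (Real.log N) * Real.exp (-(ε / (4 * s + 2) * Real.log ↑N))) := by
            rw [Real.exp_log hN0]
      _ = _ := by
          rw [← Real.exp_add, ← Real.exp_add, ← Real.exp_add]
          congr 2
          ring
  rw [e1, Real.rpow_def_of_pos hN0]
  have e2 : 4 * Real.exp ((1 + c * (1 + κ) - ε / (4 * s + 2)) * Real.log N) =
      Real.exp (Real.log 4 + (1 + c * (1 + κ) - ε / (4 * s + 2)) * Real.log N) := by
    rw [Real.exp_add, Real.exp_log (by norm_num)]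
  rw [e2]
  apply Real.exp_le_exp.2
  have h9 : Real.log 4 ≤ ε / ((4 * s + 2) * 2) * Real.log N := by
    have h10 : (Real.log 4) * ((4 * s + 2) * 2) ≤ Real.log N * ε := by
      rwa [div_le_iff₀ hε] at hL4
    rw [div_mul_eq_mul_div, le_div_iff₀ (by positivity)]
    linarith
  have h11 : ε / (4 * s + 2) = 2 * (ε / ((4 * s + 2) * 2)) := by
    field_simp
  have h12 : c * (2 + κ) * Real.log N ≤ ε / ((4 * s + 2) * 2) * Real.log N :=
    mul_le_mul_of_nonneg_right hc2 (by linarith)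
  rw [h11]
  nlinarith

end Pool.Agent.W406.TW
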