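import Mathlib
import Pool.Agent.W406.TW.Uni

set_option autoImplicit false

/-! # Products of primes at consecutive places -/

namespace Pool.Agent.W406.TW

open Finset

/-- the `k`-th prime, `pr 0 = 2` -/
noncomputable def pr (k : ℕ) : ℕ := Nat.nth Nat.Prime k

lemma pr_prime (k : ℕ) : (pr k).Prime := Nat.prime_nth_prime k

lemma pr_inj : Function.Injective pr := Nat.nth_injective Nat.infinite_setOfPred_prime

lemma pr_ne_two {k : ℕ} (hk : 1 ≤ k) : pr k ≠ 2 := by
  intro h
  have h0 : pr 0 = 2 := Nat.nth_prime_zero_eq_two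
  have := pr_inj (h.trans h0.symm)
  omega

/-- the product of the primes `p_{k+i}`, `i ∈ I` -/
noncomputable def nk {s : ℕ} (I : Finset (Fin s)) (k : ℕ) : ℕ := ∏ i ∈ I, pr (k + i)

lemma nk_odd {s : ℕ} (I : Finset (Fin s)) {k : ℕ} (hk : 1 ≤ k) : Odd (nk I k) := by
  unfold nk
  apply Finset.prod_induction _ Odd (fun a b ha hb => ha.mul hb) odd_one
  intro i _
  exact (pr_prime _).odd_of_ne_two (pr_ne_two (by omega))

lemma nk_ne {s : ℕ} (I : Finset (Fin s)) (k : ℕ) : nk I k ≠ 0 :=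
  prod_ne_zero_iff.2 fun _ _ => (pr_prime _).ne_zero

lemma fact_nk {s : ℕ} (I : Finset (Fin s)) (k l : ℕ) :
    (nk I k).factorization (pr l) = ∑ i ∈ I, if k + i = l then 1 else 0 := by
  unfold nk
  rw [Nat.factorization_prod fun i _ => (pr_prime _).ne_zero]
  rw [Finsupp.finsetSum_apply]
  refine sum_congr rfl fun i _ => ?_
  rw [(pr_prime _).factorization]
  split_ifs with h
  · rw [h]; simp
  · rw [Finsupp.single_apply, if_neg (fun h' => h (pr_inj h'))]

lemma even_fact {n : ℕ} (hn : n ≠ 0) (h : IsSquare n) (q : ℕ) : Even (n.factorization q) := by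
  obtain ⟨r, rfl⟩ := h
  have hr : r ≠ 0 := by rintro rfl; exact hn rfl
  rw [Nat.factorization_mul hr hr]
  exact ⟨r.factorization q, rfl⟩

theorem indep_nk {s : ℕ} (I : Finset (Fin s)) (hI : I.Nonempty) (P : Finset ℕ) : Indep P (nk I) := by
  classical
  intro m f _ hsq
  by_contra hc
  unfold EvenF at hc
  push Not at hc
  have hex : ∃ k, ¬ Even (cnt f k) := by
    obtain ⟨k, hk⟩ := hc; exact ⟨k, by simpa using hk⟩
  set k₀ := Nat.find hex with hk₀
  have h1 : ¬ Even (cnt f k₀) := Nat.find_spec hex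
  have h2 : ∀ k, k < k₀ → Even (cnt f k) := fun k hk => by
    by_contra h; exact Nat.find_min hex hk h
  set i₀ := I.min' hI with hi₀
  have hfac : (∏ j, nk I (f j)).factorization (pr (k₀ + i₀)) =
      ∑ i ∈ I, ∑ j, if f j + i = k₀ + i₀ then 1 else 0 := by
    rw [Nat.factorization_prod fun j _ => nk_ne I (f j), Finsupp.finsetSum_apply]
    rw [sum_comm]
    exact sum_congr rfl fun j _ => fact_nk I (f j) _
  have hev := even_fact (prod_ne_zero_iff.2 fun j _ => nk_ne I (f j)) hsq (pr (k₀ + i₀))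
  rw [hfac, ← add_sum_erase I _ (I.min'_mem hI)] at hev
  have h3 : (∑ j, if f j + (I.min' hI : Fin s) = k₀ + i₀ then 1 else 0) = cnt f k₀ := by
    unfold cnt
    refine sum_congr rfl fun j _ => ?_
    rw [← hi₀]
    congr 1
    simp only [eq_iff_iff]
    omega
  have h4 : Even (∑ i ∈ I.erase (I.min' hI), ∑ j, if f j + (i : ℕ) = k₀ + i₀ then 1 else 0) := by
    apply Finset.even_sum
    intro i hi
    obtain ⟨hi1, hi2⟩ := mem_erase.1 hi
    have hlt : i₀ < i := lt_of_le_of_ne (I.min'_le i hi2) (Ne.symm hi1)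
    have hlt' : (i₀ : ℕ) < i := hlt
    by_cases hle : (i : ℕ) ≤ k₀ + i₀
    · have h5 : (∑ j, if f j + (i : ℕ) = k₀ + i₀ then 1 else 0) = cnt f (k₀ + i₀ - i) := by
        unfold cnt
        refine sum_congr rfl fun j _ => ?_
        congr 1
        simp only [eq_iff_iff]
        omega
      rw [h5]
      exact h2 _ (by omega)
    · have h5 : (∑ j, if f j + (i : ℕ) = k₀ + i₀ then 1 else 0) = 0 := by
        apply sum_eq_zero
        intro j _
        rw [if_neg]
        omega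
      rw [h5]
      exact Even.zero
  rw [h3] at hev
  exact h1 ((Nat.even_add.1 hev).2 h4)

lemma cheb (x : ℕ) (hx : 4 ≤ x) :
    (x : ℝ) / 4 ≤ (Nat.primeCounting x : ℝ) * Real.log x := by
  have h := Chebyshev.pi_ge x
  have hx' : (4 : ℝ) ≤ x := by exact_mod_cast hx
  have hlog : 0 < Real.log x := Real.log_pos (by linarith)
  rw [div_le_iff₀ hlog] at h
  refine le_trans ?_ h
  have h1 : Real.log ((x : ℝ) + 1) ≤ ((x : ℝ) + 1) / 4 - 1 + Real.log 4 := by
    have h2 := Real.log_le_sub_one_of_pos (x := ((x : ℝ) + 1) / 4) (by positivity)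
    rw [Real.log_div (by positivity) (by norm_num)] at h2
    linarith
  have h3 : Real.log 4 = 2 * Real.log 2 := by
    rw [show (4 : ℝ) = 2 ^ 2 by norm_num, Real.log_pow]
    norm_num
  have h4 := Real.log_two_gt_d9
  have h5 := Real.log_two_lt_d9
  rw [h3] at h1
  have h6 : 0.6931471803 * (x : ℝ) ≤ (x : ℝ) * Real.log 2 := by nlinarith
  norm_num at h4 h5 h6 ⊢
  linarith

/-- `p_k ≤ y²` for `k < y + s`, `y` large -/
lemma pr_le (s : ℕ) (y : ℕ) (hy : max 1024 s ≤ y) (k : ℕ) (hk : k < y + s) : pr k ≤ y ^ 2 := by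
  have hy4 : 1024 ≤ y := le_trans (le_max_left _ _) hy
  have hys : s ≤ y := le_trans (le_max_right _ _) hy
  have hy1 : (1024 : ℝ) ≤ y := by exact_mod_cast hy4
  have hy0 : (0 : ℝ) < y := by linarith
  have hch := cheb (y ^ 2) (by nlinarith)
  push_cast at hch
  rw [Real.log_pow] at hch
  push_cast at hch
  have hs32 : (32 : ℝ) ≤ √(y : ℝ) := Real.le_sqrt_of_sq_le (by norm_num; linarith)
  have hsq : √(y : ℝ) * √(y : ℝ) = y := Real.mul_self_sqrt hy0.le
  have hlog : Real.log y ≤ 2 * √(y : ℝ) := by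
    have h1 := Real.log_le_sub_one_of_pos (x := √(y : ℝ)) (by positivity)
    rw [Real.log_sqrt hy0.le] at h1
    linarith
  have hpi : (2 : ℝ) * y ≤ Nat.primeCounting (y ^ 2) := by
    have h2 : (Nat.primeCounting (y ^ 2) : ℝ) * (2 * Real.log y) ≤
        (Nat.primeCounting (y ^ 2) : ℝ) * (4 * √(y : ℝ)) :=
      mul_le_mul_of_nonneg_left (by linarith) (Nat.cast_nonneg _)
    have h3 : (y : ℝ) ^ 2 / 4 ≤ (Nat.primeCounting (y ^ 2) : ℝ) * (4 * √(y : ℝ)) := le_trans hch h2
    have h4 : (y : ℝ) ^ 2 = y * √(y : ℝ) * √(y : ℝ) := by rw [mul_assoc, hsq]; ring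
    have h5 : y * √(y : ℝ) ≤ 16 * (Nat.primeCounting (y ^ 2) : ℝ) := by
      have h6 : (y * √(y : ℝ)) * √(y : ℝ) ≤ (16 * (Nat.primeCounting (y ^ 2) : ℝ)) * √(y : ℝ) := by
        rw [h4] at h3; linarith
      exact le_of_mul_le_mul_right h6 (by linarith)
    nlinarith
  have hpi' : k < Nat.primeCounting (y ^ 2) := by
    have h7 : (k : ℝ) < Nat.primeCounting (y ^ 2) := by
      calc (k : ℝ) < (y + s : ℕ) := by exact_mod_cast hk
        _ ≤ 2 * y := by
            have : ((y + s : ℕ) : ℝ) ≤ ((2 * y : ℕ) : ℝ) := by exact_mod_cast (by omega : y + s ≤ 2 * y)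
            push_cast at this ⊢
            linarith
        _ ≤ _ := hpi
    exact_mod_cast h7
  have h8 : Nat.nth Nat.Prime k < y ^ 2 + 1 := Nat.nth_lt_of_lt_count hpi'
  unfold pr
  omega

end Pool.Agent.W406.TW
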