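import Mathlib
import Pool.Agent.W406.TW.Cons
import Pool.Agent.W406.TW.Ang

set_option autoImplicit false

/-! # Boxes for `s` consecutive angles of a quadratic twist -/

namespace Pool.Agent.W406.TW

open Finset

/-- all the values `x j`, `1 - x j`, and two large numbers in the wrong order -/
noncomputable def val (x : ℕ → ℝ) (j : ℕ) : ℝ :=
  if j = 0 then 5 else if j = 1 then 4 else if Even j then x (j / 2 - 1) else 1 - x (j / 2 - 1)

lemma val_even (x : ℕ → ℝ) (i : ℕ) : val x (2 * i + 2) = x i := by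
  unfold val
  rw [if_neg (by omega), if_neg (by omega), if_pos ⟨i + 1, by ring⟩]
  congr 1; omega

lemma val_odd (x : ℕ → ℝ) (i : ℕ) : val x (2 * i + 3) = 1 - x i := by
  unfold val
  have h : ¬ Even (2 * i + 3) := by rw [Nat.not_even_iff_odd]; exact ⟨i + 1, by ring⟩
  rw [if_neg (by omega), if_neg (by omega), if_neg h]
  congr 2; omega

lemma val_zero (x : ℕ → ℝ) : val x 0 = 5 := by simp [val]
lemma val_one (x : ℕ → ℝ) : val x 1 = 4 := by simp [val]

/-- the trace of an interval on the finitely many values -/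
lemma trace (x : ℕ → ℝ) (T : ℕ) (S : Set ℝ) (hS : S.OrdConnected) :
    ∃ a b : ℕ, a < 2 * T + 2 ∧ b < 2 * T + 2 ∧ ∀ j < T,
      (x j ∈ S ↔ val x a ≤ x j ∧ x j ≤ val x b) ∧
      (1 - x j ∈ S ↔ val x a ≤ 1 - x j ∧ 1 - x j ≤ val x b) := by
  classical
  set F := (range (2 * T + 2)).filter (fun j => 2 ≤ j ∧ val x j ∈ S) with hF
  rcases F.eq_empty_or_nonempty with hE | hne
  · refine ⟨0, 1, by omega, by omega, fun j hj => ?_⟩
    rw [val_zero, val_one]
    constructor
    · constructor
      · intro h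
        have : 2 * j + 2 ∈ F := mem_filter.2 ⟨mem_range.2 (by omega), by omega, by rw [val_even]; exact h⟩
        rw [hE] at this; exact absurd this (notMem_empty _)
      · rintro ⟨h1, h2⟩; linarith
    · constructor
      · intro h
        have : 2 * j + 3 ∈ F := mem_filter.2 ⟨mem_range.2 (by omega), by omega, by rw [val_odd]; exact h⟩
        rw [hE] at this; exact absurd this (notMem_empty _)
      · rintro ⟨h1, h2⟩; linarith
  · obtain ⟨a, ha, ha'⟩ := F.exists_min_image (val x) hne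
    obtain ⟨b, hb, hb'⟩ := F.exists_max_image (val x) hne
    obtain ⟨ha1, ha2, ha3⟩ := mem_filter.1 ha
    obtain ⟨hb1, hb2, hb3⟩ := mem_filter.1 hb
    refine ⟨a, b, mem_range.1 ha1, mem_range.1 hb1, fun j hj => ?_⟩
    constructor
    · constructor
      · intro h
        have : 2 * j + 2 ∈ F := mem_filter.2 ⟨mem_range.2 (by omega), by omega, by rw [val_even]; exact h⟩
        have h1 := ha' _ this
        have h2 := hb' _ this
        rw [val_even] at h1 h2
        exact ⟨h1, h2⟩
      · intro h; exact hS.out ha3 hb3 h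
    · constructor
      · intro h
        have : 2 * j + 3 ∈ F := mem_filter.2 ⟨mem_range.2 (by omega), by omega, by rw [val_odd]; exact h⟩
        have h1 := ha' _ this
        have h2 := hb' _ this
        rw [val_odd] at h1 h2
        exact ⟨h1, h2⟩
      · intro h; exact hS.out ha3 hb3 h

/-- indicator function with real values -/
noncomputable def ind (p : Prop) : ℝ := by classical exact if p then 1 else 0

lemma ind_congr {p q : Prop} (h : p ↔ q) : ind p = ind q := by rw [propext h]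
lemma ind_nonneg (p : Prop) : 0 ≤ ind p := by unfold ind; split_ifs <;> norm_num
lemma ind_le (p : Prop) : ind p ≤ 1 := by unfold ind; split_ifs <;> norm_num
lemma ind_cases (p : Prop) : ind p = 0 ∨ ind p = 1 := by unfold ind; split_ifs <;> simp

lemma prod_ind {s : ℕ} (p : Fin s → Prop) : ∏ i, ind (p i) = ind (∀ i, p i) := by
  classical
  unfold ind
  by_cases h : ∀ i, p i
  · rw [if_pos h]; exact prod_eq_one fun i _ => if_pos (h i)
  · rw [if_neg h]
    push Not at h
    obtain ⟨i, hi⟩ := h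
    exact prod_eq_zero (mem_univ i) (if_neg hi)

lemma card_ind (K : ℕ) (p : ℕ → Prop) [DecidablePred p] :
    (((range K).filter p).card : ℝ) = ∑ k ∈ range K, ind (p k) := by
  rw [card_filter]
  push_cast
  refine sum_congr rfl fun k _ => ?_
  unfold ind
  split_ifs <;> simp

/-- expansion of a product of sums over subsets -/
lemma expand {s : ℕ} (f g : Fin s → ℝ) :
    ∏ i, (f i + g i) = ∑ I : Finset (Fin s), (∏ i ∈ I, f i) * ∏ i ∈ univ \ I, g i := by
  rw [prod_add, powerset_univ]

lemma prod_split {s : ℕ} (I : Finset (Fin s)) (f g : Fin s → ℝ) :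
    ∏ i, (if i ∈ I then f i else g i) = (∏ i ∈ I, f i) * ∏ i ∈ univ \ I, g i := by
  classical
  rw [← prod_sdiff (subset_univ I), mul_comm]
  congr 1
  · exact prod_congr rfl fun i hi => if_pos hi
  · exact prod_congr rfl fun i hi => if_neg (mem_sdiff.1 hi).2

/-- the weights -/
noncomputable def wt {s : ℕ} (x : ℕ → ℝ) (I : Finset (Fin s)) (ab : Fin s → ℕ × ℕ) (k : ℕ) : ℝ :=
  ((∏ i ∈ I, (ind (val x (ab i).1 ≤ x (k + i) ∧ x (k + i) ≤ val x (ab i).2) -
      ind (val x (ab i).1 ≤ 1 - x (k + i) ∧ 1 - x (k + i) ≤ val x (ab i).2))) *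
    ∏ i ∈ univ \ I, (ind (val x (ab i).1 ≤ x (k + i) ∧ x (k + i) ≤ val x (ab i).2) +
      ind (val x (ab i).1 ≤ 1 - x (k + i) ∧ 1 - x (k + i) ≤ val x (ab i).2))) / 2 ^ s

lemma wt_le {s : ℕ} (x : ℕ → ℝ) (I : Finset (Fin s)) (ab : Fin s → ℕ × ℕ) (k : ℕ) :
    |wt x I ab k| ≤ 1 := by
  classical
  unfold wt
  rw [abs_div, abs_mul, abs_prod, abs_prod, abs_of_pos (by positivity : (0 : ℝ) < 2 ^ s)]
  rw [div_le_one (by positivity)]
  calc _ ≤ (∏ i ∈ I, (2 : ℝ)) * ∏ i ∈ univ \ I, (2 : ℝ) := by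
        apply mul_le_mul
        · apply prod_le_prod (fun i _ => abs_nonneg _)
          intro i _
          rcases ind_cases (val x (ab i).1 ≤ x (k + i) ∧ x (k + i) ≤ val x (ab i).2) with h | h <;>
          rcases ind_cases (val x (ab i).1 ≤ 1 - x (k + i) ∧ 1 - x (k + i) ≤ val x (ab i).2) with h' | h' <;>
          rw [h, h'] <;> norm_num
        · apply prod_le_prod (fun i _ => abs_nonneg _)
          intro i _
          rcases ind_cases (val x (ab i).1 ≤ x (k + i) ∧ x (k + i) ≤ val x (ab i).2) with h | h <;>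
          rcases ind_cases (val x (ab i).1 ≤ 1 - x (k + i) ∧ 1 - x (k + i) ≤ val x (ab i).2) with h' | h' <;>
          rw [h, h'] <;> norm_num
        · exact prod_nonneg fun i _ => abs_nonneg _
        · exact prod_nonneg fun i _ => by norm_num
    _ = 2 ^ s := by
        rw [prod_const, prod_const, ← pow_add]
        congr 1
        have := card_sdiff_add_card_eq_card (subset_univ I)
        rw [card_univ, Fintype.card_fin] at this
        omega

/-- the identity at one place -/
lemma point {s : ℕ} (x xD : ℕ → ℝ) (D : ℤ) (R : Fin s → Set ℝ) (ab : Fin s → ℕ × ℕ) (k : ℕ)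
    (hab : ∀ i : Fin s, (x (k + i) ∈ R i ↔ val x (ab i).1 ≤ x (k + i) ∧ x (k + i) ≤ val x (ab i).2) ∧
      (1 - x (k + i) ∈ R i ↔ val x (ab i).1 ≤ 1 - x (k + i) ∧ 1 - x (k + i) ≤ val x (ab i).2))
    (hx : ∀ i : Fin s, (jacobiSym D (pr (k + i)) = 1 ∧ xD (k + i) = x (k + i)) ∨
      (jacobiSym D (pr (k + i)) = -1 ∧ xD (k + i) = 1 - x (k + i))) :
    (2 : ℝ) ^ s * ind (∀ i, xD (k + i) ∈ R i) -
      ∑ J : Finset (Fin s), ind (∀ i : Fin s, (if i ∈ J then 1 - x (k + i) else x (k + i)) ∈ R i) =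
    ∑ I ∈ (univ : Finset (Finset (Fin s))).erase ∅,
      2 ^ s * (wt x I ab k * (jacobiSym D (nk I k) : ℝ)) := by
  classical
  set f : Fin s → ℝ := fun i => ind (val x (ab i).1 ≤ x (k + i) ∧ x (k + i) ≤ val x (ab i).2) with hf
  set g : Fin s → ℝ := fun i => ind (val x (ab i).1 ≤ 1 - x (k + i) ∧ 1 - x (k + i) ≤ val x (ab i).2) with hg
  have h1 : (2 : ℝ) ^ s * ind (∀ i, xD (k + i) ∈ R i) =
      ∏ i : Fin s, ((jacobiSym D (pr (k + i)) : ℝ) * (f i - g i) + (f i + g i)) := by
    rw [← prod_ind]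
    have : (2 : ℝ) ^ s = ∏ _i : Fin s, (2 : ℝ) := by simp
    rw [this, ← prod_mul_distrib]
    refine prod_congr rfl fun i _ => ?_
    rcases hx i with ⟨h, h'⟩ | ⟨h, h'⟩
    · rw [h, h', ind_congr (hab i).1]
      push_cast
      ring
    · rw [h, h', ind_congr (hab i).2]
      push_cast
      ring
  have h2 : ∑ J : Finset (Fin s), ind (∀ i : Fin s, (if i ∈ J then 1 - x (k + i) else x (k + i)) ∈ R i) =
      ∏ i, (g i + f i) := by
    rw [expand]
    refine sum_congr rfl fun J _ => ?_
    rw [← prod_ind, ← prod_split]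
    refine prod_congr rfl fun i _ => ?_
    by_cases hi : i ∈ J
    · rw [if_pos hi, if_pos hi]; exact ind_congr (hab i).2
    · rw [if_neg hi, if_neg hi]; exact ind_congr (hab i).1
  rw [h1, h2, expand, ← add_sum_erase univ _ (mem_univ ∅)]
  simp only [prod_empty, one_mul, sdiff_empty]
  have h3 : ∏ i, (f i + g i) = ∏ i, (g i + f i) := prod_congr rfl fun i _ => add_comm _ _
  rw [h3, add_sub_cancel_left]
  refine sum_congr rfl fun I _ => ?_
  unfold wt
  rw [prod_mul_distrib]
  have h4 : (jacobiSym D (nk I k) : ℝ) = ∏ i ∈ I, (jacobiSym D (pr (k + i)) : ℝ) := by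
    unfold nk
    rw [jac_prod D I (fun i => pr (k + i)) fun i _ => (pr_prime _).ne_zero]
    push_cast
    rfl
  rw [h4]
  field_simp
  rfl

end Pool.Agent.W406.TW
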