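import Mathlib
import Pool.Agent.W406.TW.Box

set_option autoImplicit false

/-! # Consecutive angles of almost all quadratic twists -/

namespace Pool.Agent.W406.TW

open Finset

/-- primes dividing `D` occur among few `s`-tuples of consecutive primes -/
lemma few_bad (D : ℤ) (hD : D ≠ 0) (s K : ℕ) :
    (((Ico 1 K).filter (fun k => ∃ i : Fin s, (pr (k + i) : ℤ) ∣ D)).card : ℝ) ≤
      s * (2 * Real.log (D.natAbs : ℝ)) := by
  classical
  have hD0 : D.natAbs ≠ 0 := Int.natAbs_ne_zero.2 hD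
  have h1 : ((Ico 1 K).filter (fun k => ∃ i : Fin s, (pr (k + i) : ℤ) ∣ D)).card ≤
      s * D.natAbs.primeFactors.card := by
    have hsub : (Ico 1 K).filter (fun k => ∃ i : Fin s, (pr (k + i) : ℤ) ∣ D) ⊆
        (univ : Finset (Fin s)).biUnion (fun i => (Ico 1 K).filter (fun k => (pr (k + i) : ℤ) ∣ D)) := by
      intro k hk
      obtain ⟨hk1, i, hi⟩ := mem_filter.1 hk
      exact mem_biUnion.2 ⟨i, mem_univ _, mem_filter.2 ⟨hk1, hi⟩⟩
    refine le_trans (card_le_card hsub) (le_trans card_biUnion_le ?_)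
    calc ∑ i : Fin s, ((Ico 1 K).filter (fun k => (pr (k + i) : ℤ) ∣ D)).card
        ≤ ∑ _i : Fin s, D.natAbs.primeFactors.card := by
          apply sum_le_sum
          intro i _
          apply card_le_card_of_injOn (fun k => pr (k + i))
          · intro k hk
            have h2 := (mem_filter.1 hk).2
            rw [mem_coe, Nat.mem_primeFactors]
            exact ⟨pr_prime _, Int.natCast_dvd.1 h2, hD0⟩
          · intro k _ l _ hkl
            have := pr_inj hkl
            omega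
      _ = s * D.natAbs.primeFactors.card := by simp
  have h2 : (D.natAbs.primeFactors.card : ℝ) ≤ 2 * Real.log (D.natAbs : ℝ) := by
    have h3 : 2 ^ D.natAbs.primeFactors.card ≤ D.natAbs := by
      calc 2 ^ D.natAbs.primeFactors.card = ∏ _p ∈ D.natAbs.primeFactors, 2 := by simp
        _ ≤ ∏ p ∈ D.natAbs.primeFactors, p :=
            prod_le_prod' fun p hp => (Nat.prime_of_mem_primeFactors hp).two_le
        _ ≤ D.natAbs := Nat.le_of_dvd (Nat.pos_of_ne_zero hD0) (Nat.prod_primeFactors_dvd _)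
    have h4 : ((2 : ℝ) ^ D.natAbs.primeFactors.card) ≤ (D.natAbs : ℝ) := by exact_mod_cast h3
    have h5 := Real.log_le_log (by positivity) h4
    rw [Real.log_pow] at h5
    have h6 := Real.log_two_gt_d9
    have h7 : (0 : ℝ) ≤ (D.natAbs.primeFactors.card : ℝ) := Nat.cast_nonneg _
    nlinarith
  calc (((Ico 1 K).filter (fun k => ∃ i : Fin s, (pr (k + i) : ℤ) ∣ D)).card : ℝ)
      ≤ ((s * D.natAbs.primeFactors.card : ℕ) : ℝ) := by exact_mod_cast h1
    _ = s * (D.natAbs.primeFactors.card : ℝ) := by push_cast; rfl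
    _ ≤ _ := mul_le_mul_of_nonneg_left h2 (Nat.cast_nonneg _)

open Classical in
/-- deterministic part -/
lemma total {s : ℕ} (x xD : ℕ → ℝ) (D : ℤ) (hD : D ≠ 0) (K : ℕ) (R : Fin s → Set ℝ)
    (hR : ∀ i, (R i).OrdConnected) (T : ℝ) (hT0 : 0 ≤ T)
    (hx : ∀ k, 1 ≤ k → (jacobiSym D (pr k) = 1 → xD k = x k) ∧ (jacobiSym D (pr k) = -1 → xD k = 1 - x k))
    (hT : ∀ I : Finset (Fin s), I.Nonempty → ∀ ab : Fin s → ℕ × ℕ,
      (∀ i, (ab i).1 < 2 * (K + s) + 2 ∧ (ab i).2 < 2 * (K + s) + 2) →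
      |SD (Ico 1 K) (wt x I ab) (nk I) D| ≤ T) :
    |(2 : ℝ) ^ s * (((range K).filter (fun k => ∀ i : Fin s, xD (k + i) ∈ R i)).card : ℝ) -
      ∑ J : Finset (Fin s), (((range K).filter (fun k => ∀ i : Fin s,
        (if i ∈ J then 1 - x (k + i) else x (k + i)) ∈ R i)).card : ℝ)| ≤
      4 ^ s * T + 3 * 4 ^ s * (s * (2 * Real.log (D.natAbs : ℝ)) + 1) := by
  -- the intervals
  have htr : ∀ i : Fin s, ∃ a b : ℕ, a < 2 * (K + s) + 2 ∧ b < 2 * (K + s) + 2 ∧ ∀ j < K + s,
      (x j ∈ R i ↔ val x a ≤ x j ∧ x j ≤ val x b) ∧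
      (1 - x j ∈ R i ↔ val x a ≤ 1 - x j ∧ 1 - x j ≤ val x b) := fun i => trace x (K + s) (R i) (hR i)
  choose a b ha hb hab using htr
  set ab : Fin s → ℕ × ℕ := fun i => (a i, b i) with habd
  set L : ℕ → ℝ := fun k => (2 : ℝ) ^ s * ind (∀ i : Fin s, xD (k + i) ∈ R i) -
      ∑ J : Finset (Fin s), ind (∀ i : Fin s, (if i ∈ J then 1 - x (k + i) else x (k + i)) ∈ R i) with hL
  set G : ℕ → ℝ := fun k => ∑ I ∈ (univ : Finset (Finset (Fin s))).erase ∅,
      2 ^ s * (wt x I ab k * (jacobiSym D (nk I k) : ℝ)) with hG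
  have hsum : (2 : ℝ) ^ s * (((range K).filter (fun k => ∀ i : Fin s, xD (k + i) ∈ R i)).card : ℝ) -
      ∑ J : Finset (Fin s), (((range K).filter (fun k => ∀ i : Fin s,
        (if i ∈ J then 1 - x (k + i) else x (k + i)) ∈ R i)).card : ℝ) = ∑ k ∈ range K, L k := by
    rw [card_ind, mul_sum]
    simp_rw [card_ind]
    rw [sum_comm, ← sum_sub_distrib]
  rw [hsum]
  -- bounds for one term
  have h2s : (0 : ℝ) < 2 ^ s := by positivity
  have hLb : ∀ k, |L k| ≤ 2 * 4 ^ s := by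
    intro k
    have h1 : 0 ≤ (2 : ℝ) ^ s * ind (∀ i : Fin s, xD (k + i) ∈ R i) := mul_nonneg h2s.le (ind_nonneg _)
    have h2 : (2 : ℝ) ^ s * ind (∀ i : Fin s, xD (k + i) ∈ R i) ≤ 2 ^ s := by
      calc _ ≤ (2 : ℝ) ^ s * 1 := mul_le_mul_of_nonneg_left (ind_le _) h2s.le
        _ = 2 ^ s := mul_one _
    have h3 : 0 ≤ ∑ J : Finset (Fin s), ind (∀ i : Fin s, (if i ∈ J then 1 - x (k + i) else x (k + i)) ∈ R i) :=
      sum_nonneg fun _ _ => ind_nonneg _
    have h4 : ∑ J : Finset (Fin s), ind (∀ i : Fin s, (if i ∈ J then 1 - x (k + i) else x (k + i)) ∈ R i) ≤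
        2 ^ s := by
      calc _ ≤ ∑ _J : Finset (Fin s), (1 : ℝ) := sum_le_sum fun _ _ => ind_le _
        _ = 2 ^ s := by simp
    have h5 : (2 : ℝ) ^ s ≤ 4 ^ s := pow_le_pow_left₀ (by norm_num) (by norm_num) s
    rw [abs_le]
    constructor <;> simp only [hL] <;> linarith
  have hGb : ∀ k, |G k| ≤ 4 ^ s := by
    intro k
    simp only [hG]
    calc |∑ I ∈ (univ : Finset (Finset (Fin s))).erase ∅, 2 ^ s * (wt x I ab k * (jacobiSym D (nk I k) : ℝ))|
        ≤ ∑ I ∈ (univ : Finset (Finset (Fin s))).erase ∅, |2 ^ s * (wt x I ab k * (jacobiSym D (nk I k) : ℝ))| :=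
          abs_sum_le_sum_abs _ _
      _ ≤ ∑ I ∈ (univ : Finset (Finset (Fin s))).erase ∅, (2 : ℝ) ^ s := by
          apply sum_le_sum
          intro I _
          rw [abs_mul, abs_mul, abs_of_pos h2s]
          have h1 := wt_le x I ab k
          have h2 : |(jacobiSym D (nk I k) : ℝ)| ≤ 1 := by
            rw [← Int.cast_abs]; exact_mod_cast jac_abs D (nk I k)
          calc (2 : ℝ) ^ s * (|wt x I ab k| * |(jacobiSym D (nk I k) : ℝ)|) ≤ 2 ^ s * (1 * 1) := by
                apply mul_le_mul_of_nonneg_left _ h2s.le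
                exact mul_le_mul h1 h2 (abs_nonneg _) zero_le_one
            _ = 2 ^ s := by ring
      _ ≤ ∑ _I : Finset (Fin s), (2 : ℝ) ^ s :=
          sum_le_sum_of_subset_of_nonneg (erase_subset _ _) fun _ _ _ => h2s.le
      _ = 4 ^ s := by
          rw [sum_const, card_univ, Fintype.card_finset, Fintype.card_fin, nsmul_eq_mul]
          push_cast
          rw [← mul_pow]; norm_num
  rcases Nat.eq_zero_or_pos K with hK0 | hK0
  · subst hK0
    rw [range_zero, sum_empty, abs_zero]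
    have hlog : 0 ≤ Real.log (D.natAbs : ℝ) := Real.log_natCast_nonneg _
    positivity
  have hr : range K = insert 0 (Ico 1 K) := by
    ext k; simp only [mem_range, mem_insert, mem_Ico]; omega
  have h0 : (0 : ℕ) ∉ Ico 1 K := by simp
  rw [hr, sum_insert h0]
  set Bd := (Ico 1 K).filter (fun k => ∃ i : Fin s, (pr (k + i) : ℤ) ∣ D) with hBd
  have hgood : ∀ k ∈ Ico 1 K, k ∉ Bd → L k = G k := by
    intro k hk hkB
    have hk1 : 1 ≤ k := (mem_Ico.1 hk).1
    have hk2 : k < K := (mem_Ico.1 hk).2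
    have hnd : ∀ i : Fin s, ¬ (pr (k + i) : ℤ) ∣ D := by
      intro i hi
      exact hkB (mem_filter.2 ⟨hk, i, hi⟩)
    apply point
    · intro i
      exact hab i (k + i) (by have := i.2; omega)
    · intro i
      have h1 := hx (k + i) (by omega)
      rcases jacobiSym.trichotomy D (pr (k + i)) with h | h | h
      · exfalso
        have : NeZero (pr (k + i)) := ⟨(pr_prime _).ne_zero⟩
        have h2 := (jacobiSym.eq_zero_iff_not_coprime).1 h
        apply h2
        rw [Int.gcd_comm]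
        have h4 : IsCoprime (pr (k + i) : ℤ) D :=
          ((Nat.prime_iff_prime_int.1 (pr_prime (k + i))).coprime_iff_not_dvd).2 (hnd i)
        exact Int.isCoprime_iff_gcd_eq_one.1 h4
      · left; exact ⟨h, h1.1 h⟩
      · right; exact ⟨h, h1.2 h⟩
  have hGsum : ∑ k ∈ Ico 1 K, G k = ∑ I ∈ (univ : Finset (Finset (Fin s))).erase ∅,
      2 ^ s * SD (Ico 1 K) (wt x I ab) (nk I) D := by
    simp only [hG]
    rw [sum_comm]
    refine sum_congr rfl fun I _ => ?_
    rw [← mul_sum]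
    rfl
  have hT' : |∑ k ∈ Ico 1 K, G k| ≤ 4 ^ s * T := by
    rw [hGsum]
    calc |∑ I ∈ (univ : Finset (Finset (Fin s))).erase ∅, 2 ^ s * SD (Ico 1 K) (wt x I ab) (nk I) D|
        ≤ ∑ I ∈ (univ : Finset (Finset (Fin s))).erase ∅, |2 ^ s * SD (Ico 1 K) (wt x I ab) (nk I) D| :=
          abs_sum_le_sum_abs _ _
      _ ≤ ∑ I ∈ (univ : Finset (Finset (Fin s))).erase ∅, (2 : ℝ) ^ s * T := by
          apply sum_le_sum
          intro I hI
          rw [abs_mul, abs_of_pos h2s]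
          apply mul_le_mul_of_nonneg_left _ h2s.le
          apply hT I (nonempty_iff_ne_empty.2 (mem_erase.1 hI).1) ab
          intro i
          exact ⟨ha i, hb i⟩
      _ = (((univ : Finset (Finset (Fin s))).erase ∅).card : ℝ) * (2 ^ s * T) := by
          rw [sum_const, nsmul_eq_mul]
      _ ≤ 4 ^ s * T := by
          have h1 : (((univ : Finset (Finset (Fin s))).erase ∅).card : ℝ) ≤ 2 ^ s := by
            have : ((univ : Finset (Finset (Fin s))).erase ∅).card ≤ 2 ^ s := by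
              refine le_trans (card_le_card (erase_subset _ _)) (le_of_eq ?_)
              rw [card_univ, Fintype.card_finset, Fintype.card_fin]
            exact_mod_cast this
          calc (((univ : Finset (Finset (Fin s))).erase ∅).card : ℝ) * (2 ^ s * T) ≤ 2 ^ s * (2 ^ s * T) :=
                mul_le_mul_of_nonneg_right h1 (by positivity)
            _ = 4 ^ s * T := by rw [← mul_assoc, ← mul_pow]; norm_num
  have hdiff : |∑ k ∈ Ico 1 K, L k - ∑ k ∈ Ico 1 K, G k| ≤ 3 * 4 ^ s * (Bd.card : ℝ) := by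
    rw [← sum_sub_distrib]
    calc |∑ k ∈ Ico 1 K, (L k - G k)| ≤ ∑ k ∈ Ico 1 K, |L k - G k| := abs_sum_le_sum_abs _ _
      _ ≤ ∑ k ∈ Ico 1 K, (if k ∈ Bd then 3 * (4 : ℝ) ^ s else 0) := by
          apply sum_le_sum
          intro k hk
          split_ifs with hkB
          · have h1 := hLb k
            have h2 := hGb k
            calc |L k - G k| ≤ |L k| + |G k| := abs_sub _ _
              _ ≤ _ := by linarith
          · rw [hgood k hk hkB, sub_self, abs_zero]
      _ = 3 * 4 ^ s * (Bd.card : ℝ) := by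
          rw [← sum_filter, sum_const, nsmul_eq_mul]
          have : (Ico 1 K).filter (fun k => k ∈ Bd) = Bd := by
            ext k
            rw [mem_filter]
            exact ⟨fun h => h.2, fun h => ⟨(mem_filter.1 h).1, h⟩⟩
          rw [this]; ring
  have hfb := few_bad D hD s K
  rw [← hBd] at hfb
  have hL0 := hLb 0
  have h4s : (0 : ℝ) < 4 ^ s := by positivity
  calc |L 0 + ∑ k ∈ Ico 1 K, L k| = |L 0 + ((∑ k ∈ Ico 1 K, L k - ∑ k ∈ Ico 1 K, G k) + ∑ k ∈ Ico 1 K, G k)| := by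
        congr 1; ring
    _ ≤ |L 0| + (|∑ k ∈ Ico 1 K, L k - ∑ k ∈ Ico 1 K, G k| + |∑ k ∈ Ico 1 K, G k|) := by
        refine le_trans (abs_add_le _ _) ?_
        gcongr
        exact abs_add_le _ _
    _ ≤ 2 * 4 ^ s + (3 * 4 ^ s * (Bd.card : ℝ) + 4 ^ s * T) := by gcongr
    _ ≤ 2 * 4 ^ s + (3 * 4 ^ s * (s * (2 * Real.log (D.natAbs : ℝ))) + 4 ^ s * T) := by gcongr
    _ ≤ _ := by linarith

end Pool.Agent.W406.TW
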