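import Mathlib
import Pool.Agent.W406.TW.Fin1

set_option autoImplicit false

/-! # Consecutive angles of almost all quadratic twists: the theorem -/

namespace Pool.Agent.W406.TW

open Finset

/-- the number of `k < K` for which the angles of `y² = x³ + A x + B` at the `s` consecutive primes
`p_k, ..., p_{k+s-1}` lie in the box `R` -/
noncomputable def cons (A B : ℤ) {s : ℕ} (R : Fin s → Set ℝ) (K : ℕ) : ℕ := by
  classical
  exact ((range K).filter fun k => ∀ i : Fin s, ang A B (Nat.nth Nat.Prime (k + i)) ∈ R i).card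

/-- the box `R` reflected in the coordinates `i ∈ J` -/
def refl {s : ℕ} (J : Finset (Fin s)) (R : Fin s → Set ℝ) : Fin s → Set ℝ :=
  fun i => {x | (if i ∈ J then 1 - x else x) ∈ R i}

theorem cons_main (s : ℕ) (ε : ℝ) (hε : 0 < ε) :
    ∃ C c : ℝ, 0 < C ∧ 0 < c ∧ ∃ N₀ : ℕ, ∀ N : ℕ, N₀ ≤ N → ∀ A B : ℤ,
      ({D : ℤ | D ≠ 0 ∧ |D| ≤ N ∧ ∃ K : ℕ, (Real.log N) ^ C ≤ K ∧ (K : ℝ) ≤ (N : ℝ) ^ c ∧
        ∃ R : Fin s → Set ℝ, (∀ i, (R i).OrdConnected) ∧
          (K : ℝ) ^ (1 / 2 + ε) < |(cons (A * D ^ 2) (B * D ^ 3) R K : ℝ) -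
            (1 / 2 ^ s) * ∑ J : Finset (Fin s), (cons A B (refl J R) K : ℝ)|}.ncard : ℝ) ≤
        (N : ℝ) ^ (1 - c) := by
  classical
  obtain ⟨A₀, c, hA₀, hc, N₁, hN₁⟩ := uniform (2 * s) (5 * s) (ε / 2) (by positivity) (by positivity)
  set C : ℝ := max A₀ 2 with hC
  -- how large `K` has to be
  have hK₁ : ∃ K₁ : ℕ, ∀ K : ℕ, K₁ ≤ K → (3 * 4 ^ s * (2 * s + 1) + 4 ^ s : ℝ) ≤ (K : ℝ) ^ (ε / 2) := by
    have := ((tendsto_rpow_atTop (by positivity : 0 < ε / 2)).comp
      tendsto_natCast_atTop_atTop).eventually_ge_atTop (3 * 4 ^ s * (2 * s + 1) + 4 ^ s : ℝ)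
    exact Filter.eventually_atTop.1 this
  obtain ⟨K₁, hK₁⟩ := hK₁
  have hlim := (Real.tendsto_log_atTop.comp tendsto_natCast_atTop_atTop).eventually_ge_atTop
    ((max (max 1024 s) K₁ : ℕ) : ℝ)
  obtain ⟨N₂, hN₂⟩ := Filter.eventually_atTop.1 hlim
  refine ⟨C, c, by positivity, hc, max N₁ N₂, fun N hN A B => ?_⟩
  have hNN₁ : N₁ ≤ N := le_trans (le_max_left _ _) hN
  have hL := hN₂ N (le_trans (le_max_right _ _) hN)
  simp only [Function.comp_apply] at hL
  have hL1 : (1024 : ℝ) ≤ Real.log N := by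
    refine le_trans ?_ hL
    exact_mod_cast le_trans (le_max_left _ _) (le_max_left _ _)
  -- facts on `K`
  have hKf : ∀ K : ℕ, (Real.log N) ^ C ≤ K → max (max 1024 s) K₁ ≤ K ∧ Real.log N ≤ (K : ℝ) ^ (1 / 2 : ℝ) := by
    intro K hK
    have h1 : (Real.log N) ^ (2 : ℝ) ≤ K :=
      le_trans (Real.rpow_le_rpow_of_exponent_le (by linarith) (le_max_right _ _)) hK
    constructor
    · have h2 : Real.log N ≤ K := by
        have h3 : (Real.log N) ^ (2 : ℝ) = (Real.log N) * Real.log N := by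
          rw [show (2 : ℝ) = ((2 : ℕ) : ℝ) by norm_num, Real.rpow_natCast]; ring
        rw [h3] at h1
        nlinarith
      exact_mod_cast le_trans hL h2
    · calc Real.log N = ((Real.log N) ^ (2 : ℝ)) ^ (1 / 2 : ℝ) := by
            rw [← Real.rpow_mul (by linarith)]; norm_num
        _ ≤ (K : ℝ) ^ (1 / 2 : ℝ) := Real.rpow_le_rpow (by positivity) h1 (by norm_num)
  set x : ℕ → ℝ := fun k => ang A B (pr k) with hx
  set Λ : ℕ → Finset (Finset (Fin s) × (Fin s → ℕ × ℕ)) := fun y =>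
    ((univ : Finset (Finset (Fin s))).filter (fun I => I.Nonempty)) ×ˢ
      Fintype.piFinset (fun _ => range (2 * (y + s) + 2) ×ˢ range (2 * (y + s) + 2)) with hΛ
  have key := hN₁ N hNN₁ ℕ (Finset (Fin s) × (Fin s → ℕ × ℕ))
    (fun y => if (Real.log N) ^ C ≤ y then Λ y else ∅) (fun y _ => Ico 1 y)
    (fun _ l => wt x l.1 l.2) (fun _ l => nk l.1) ?_
  swap
  · intro y hy1 hy2
    by_cases hyC : (Real.log N) ^ C ≤ y
    · rw [if_pos hyC]
      obtain ⟨hyK, _⟩ := hKf y hyC
      have hy1024 : 1024 ≤ y := le_trans (le_trans (le_max_left _ _) (le_max_left _ _)) hyK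
      have hys : s ≤ y := le_trans (le_trans (le_max_right _ _) (le_max_left _ _)) hyK
      constructor
      · have h1 : (Λ y).card ≤ y ^ (5 * s) := by
          rw [hΛ]
          simp only
          rw [card_product, Fintype.card_piFinset]
          simp only [card_product, card_range, prod_const, card_univ, Fintype.card_fin]
          have h2 : ((univ : Finset (Finset (Fin s))).filter (fun I => I.Nonempty)).card ≤ y ^ s := by
            refine le_trans (card_filter_le _ _) ?_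
            rw [card_univ, Fintype.card_finset, Fintype.card_fin]
            exact Nat.pow_le_pow_left (by omega) s
          have h3 : 2 * (y + s) + 2 ≤ y ^ 2 := by nlinarith
          calc _ ≤ y ^ s * ((y ^ 2) * (y ^ 2)) ^ s := by
                apply Nat.mul_le_mul h2
                apply Nat.pow_le_pow_left
                exact Nat.mul_le_mul h3 h3
            _ = y ^ (5 * s) := by ring
        have h2 : ((Λ y).card : ℝ) ≤ ((y ^ (5 * s) : ℕ) : ℝ) := by exact_mod_cast h1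
        refine le_trans h2 (le_of_eq ?_)
        push_cast
        rw [← Real.rpow_natCast]
        push_cast
        rfl
      · intro l hl
        have hlI : l.1.Nonempty := (mem_filter.1 (mem_product.1 hl).1).2
        refine ⟨?_, ?_, ?_, ?_, ?_⟩
        · rw [Nat.card_Ico]; omega
        · intro k hk
          exact nk_odd l.1 (mem_Ico.1 hk).1
        · intro k hk
          unfold nk
          calc ∏ i ∈ l.1, pr (k + i) ≤ ∏ _i ∈ l.1, y ^ 2 := by
                apply prod_le_prod'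
                intro i _
                apply pr_le s y
                · exact le_trans (le_max_left _ _) hyK
                · have := i.2
                  have := (mem_Ico.1 hk).2
                  omega
            _ = (y ^ 2) ^ l.1.card := prod_const _
            _ ≤ (y ^ 2) ^ s := by
                apply Nat.pow_le_pow_right (by positivity)
                have := card_le_univ l.1
                rwa [Fintype.card_fin] at this
            _ = y ^ (2 * s) := by rw [pow_mul]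
        · exact indep_nk l.1 hlI _
        · intro k _
          exact wt_le x l.1 l.2 k
    · rw [if_neg hyC]
      refine ⟨?_, fun l hl => absurd hl (notMem_empty _)⟩
      rw [card_empty, Nat.cast_zero]
      positivity
  refine le_trans ?_ key
  rw [← Set.ncard_coe_finset]
  have hle : ({D : ℤ | D ≠ 0 ∧ |D| ≤ N ∧ ∃ K : ℕ, (Real.log N) ^ C ≤ K ∧ (K : ℝ) ≤ (N : ℝ) ^ c ∧
        ∃ R : Fin s → Set ℝ, (∀ i, (R i).OrdConnected) ∧
          (K : ℝ) ^ (1 / 2 + ε) < |(cons (A * D ^ 2) (B * D ^ 3) R K : ℝ) -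
            (1 / 2 ^ s) * ∑ J : Finset (Fin s), (cons A B (refl J R) K : ℝ)|}).ncard ≤ _ :=
    Set.ncard_le_ncard (t := (((Icc (-(N : ℤ)) N).filter (fun D => ∃ y : ℕ, (Real.log N) ^ A₀ ≤ y ∧
      (y : ℝ) ≤ (N : ℝ) ^ c ∧ ∃ l ∈ (if (Real.log N) ^ C ≤ y then Λ y else ∅),
        √(((Ico 1 y).card : ℕ) : ℝ) * (y : ℝ) ^ (ε / 2) < |SD (Ico 1 y) (wt x l.1 l.2) (nk l.1) D|) :
          Finset ℤ) : Set ℤ)) ?_ (Finset.finite_toSet _)
  · exact_mod_cast hle
  intro D hD
  obtain ⟨hD0, hDN, K, hK1, hK2, R, hR, hlt⟩ := hD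
  rw [mem_coe, mem_filter]
  refine ⟨mem_Icc.2 (abs_le.1 hDN), ?_⟩
  by_contra hcon
  apply absurd hlt
  rw [not_lt]
  obtain ⟨hKK, hKlog⟩ := hKf K hK1
  have hK1024 : 1024 ≤ K := le_trans (le_trans (le_max_left _ _) (le_max_left _ _)) hKK
  have hK0 : (0 : ℝ) < K := by
    have : 0 < K := by omega
    exact_mod_cast this
  have hKA : (Real.log N) ^ A₀ ≤ K :=
    le_trans (Real.rpow_le_rpow_of_exponent_le (by linarith) (le_max_left _ _)) hK1
  set T : ℝ := √(((Ico 1 K).card : ℕ) : ℝ) * (K : ℝ) ^ (ε / 2) with hT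
  have hT0 : 0 ≤ T := by positivity
  have htot := total x (fun k => ang (A * D ^ 2) (B * D ^ 3) (pr k)) D hD0 K R hR T hT0 ?_ ?_
  · have hcD : (((range K).filter (fun k => ∀ i : Fin s,
        ang (A * D ^ 2) (B * D ^ 3) (pr (k + i)) ∈ R i)).card : ℝ) = cons (A * D ^ 2) (B * D ^ 3) R K := by
      unfold cons
      rfl
    have hcJ : ∀ J : Finset (Fin s), (((range K).filter (fun k => ∀ i : Fin s,
        (if i ∈ J then 1 - x (k + i) else x (k + i)) ∈ R i)).card : ℝ) = cons A B (refl J R) K := by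
      intro J
      unfold cons refl
      rfl
    simp only [hcJ] at htot
    rw [hcD] at htot
    have h2s : (1 : ℝ) ≤ 2 ^ s := one_le_pow₀ (by norm_num)
    have h2s' : (0 : ℝ) < 2 ^ s := by positivity
    set u : ℝ := (cons (A * D ^ 2) (B * D ^ 3) R K : ℝ) with hu
    set v : ℝ := ∑ J : Finset (Fin s), (cons A B (refl J R) K : ℝ) with hv
    have h1 : |u - (1 / 2 ^ s) * v| ≤ |(2 : ℝ) ^ s * u - v| := by
      have h3 : (2 : ℝ) ^ s * u - v = 2 ^ s * (u - (1 / 2 ^ s) * v) := by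
        field_simp
      rw [h3, abs_mul, abs_of_pos h2s']
      nlinarith [abs_nonneg (u - (1 / 2 ^ s) * v)]
    refine le_trans h1 (le_trans htot ?_)
    have hTK : T ≤ (K : ℝ) ^ (1 / 2 + ε / 2) := by
      rw [Real.rpow_add hK0, hT]
      apply mul_le_mul_of_nonneg_right _ (by positivity)
      rw [← Real.sqrt_eq_rpow]
      apply Real.sqrt_le_sqrt
      rw [Nat.card_Ico]
      exact_mod_cast Nat.sub_le K 1
    have hDlog : Real.log (D.natAbs : ℝ) ≤ (K : ℝ) ^ (1 / 2 : ℝ) := by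
      refine le_trans ?_ hKlog
      apply Real.log_le_log
      · have := Int.natAbs_pos.2 hD0
        exact_mod_cast this
      · have : (D.natAbs : ℤ) ≤ N := by rwa [Int.natCast_natAbs]
        exact_mod_cast this
    have hKε : (1 : ℝ) ≤ (K : ℝ) ^ (ε / 2) := Real.one_le_rpow (by
      have : (1024 : ℝ) ≤ K := by exact_mod_cast hK1024
      linarith) (by positivity)
    have hKh : (1 : ℝ) ≤ (K : ℝ) ^ (1 / 2 : ℝ) := Real.one_le_rpow (by
      have : (1024 : ℝ) ≤ K := by exact_mod_cast hK1024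
      linarith) (by norm_num)
    have h4s : (0 : ℝ) < 4 ^ s := by positivity
    have hs0 : (0 : ℝ) ≤ s := Nat.cast_nonneg s
    have hbig := hK₁ K (le_trans (le_max_right _ _) hKK)
    set a := (K : ℝ) ^ (1 / 2 : ℝ) with ha
    set b := (K : ℝ) ^ (ε / 2) with hb
    have e1 : (K : ℝ) ^ (1 / 2 + ε / 2) = a * b := by rw [Real.rpow_add hK0]
    have e2 : (K : ℝ) ^ (1 / 2 + ε) = a * b * b := by
      rw [show (1 : ℝ) / 2 + ε = 1 / 2 + ε / 2 + ε / 2 by ring, Real.rpow_add hK0, Real.rpow_add hK0]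
    rw [e2]
    rw [e1] at hTK
    have hab : 1 ≤ a * b := one_le_mul_of_one_le_of_one_le hKh hKε
    calc 4 ^ s * T + 3 * 4 ^ s * (s * (2 * Real.log (D.natAbs : ℝ)) + 1)
        ≤ 4 ^ s * (a * b) + 3 * 4 ^ s * (s * (2 * a) + 1) := by gcongr
      _ ≤ 4 ^ s * (a * b) + 3 * 4 ^ s * (s * (2 * (a * b)) + a * b) := by
          gcongr
          nlinarith
      _ = (a * b) * (3 * 4 ^ s * (2 * s + 1) + 4 ^ s) := by ring
      _ ≤ (a * b) * b := mul_le_mul_of_nonneg_left hbig (by positivity)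
  · intro k hk
    exact ⟨fun h => ang_one A B D (pr_prime k) (pr_ne_two hk) h,
      fun h => ang_neg A B D (pr_prime k) (pr_ne_two hk) h⟩
  · intro I hI ab hab
    by_contra hlt'
    rw [not_le] at hlt'
    apply hcon
    refine ⟨K, hKA, hK2, (I, ab), ?_, hlt'⟩
    rw [if_pos hK1]
    refine mem_product.2 ⟨mem_filter.2 ⟨mem_univ _, hI⟩, Fintype.mem_piFinset.2 fun i => ?_⟩
    exact mem_product.2 ⟨mem_range.2 (hab i).1, mem_range.2 (hab i).2⟩

end Pool.Agent.W406.TW
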