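import Mathlib
import Pool.Agent.W406.TW.Fin1

set_option autoImplicit false

/-! # Primes with a given Frobenius trace, for almost all quadratic twists -/

namespace Pool.Agent.W406.TW

open Finset

/-- the number of primes `p ≤ x` not dividing `2 (4 A³ + 27 B²)` at which the trace of Frobenius of
`y² = x³ + A x + B` is `t` -/
noncomputable def piT (A B t : ℤ) (x : ℕ) : ℕ := by
  classical
  exact ((Icc 1 x).filter fun p : ℕ =>
    p.Prime ∧ ¬ ((p : ℤ) ∣ 2 * (4 * A ^ 3 + 27 * B ^ 2)) ∧ ap A B p = t).card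

lemma ap_abs (A B : ℤ) (p : ℕ) : |ap A B p| ≤ p := by
  unfold ap
  rw [abs_neg]
  calc |∑ x ∈ range p, jacobiSym ((x : ℤ) ^ 3 + A * x + B) p|
      ≤ ∑ x ∈ range p, |jacobiSym ((x : ℤ) ^ 3 + A * x + B) p| := abs_sum_le_sum_abs _ _
    _ ≤ ∑ x ∈ range p, (1 : ℤ) := sum_le_sum fun _ _ => jac_abs _ _
    _ = p := by simp

/-- the primes with trace `t` or `-t` -/
noncomputable def PT (A B t : ℤ) (x : ℕ) : Finset ℕ := by
  classical
  exact (Icc 1 x).filter fun p : ℕ =>
    p.Prime ∧ ¬ ((p : ℤ) ∣ 2 * (4 * A ^ 3 + 27 * B ^ 2)) ∧ (ap A B p = t ∨ ap A B p = -t)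

lemma mem_PT {A B t : ℤ} {x p : ℕ} : p ∈ PT A B t x ↔ (1 ≤ p ∧ p ≤ x) ∧ p.Prime ∧
    ¬ ((p : ℤ) ∣ 2 * (4 * A ^ 3 + 27 * B ^ 2)) ∧ (ap A B p = t ∨ ap A B p = -t) := by
  classical
  unfold PT
  rw [mem_filter, mem_Icc]

lemma card_PT (A B t : ℤ) (ht : t ≠ 0) (x : ℕ) :
    ((PT A B t x).card : ℝ) = piT A B t x + piT A B (-t) x := by
  classical
  have h : (PT A B t x).card = piT A B t x + piT A B (-t) x := by
    unfold piT PT
    rw [← card_union_of_disjoint]
    · congr 1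
      ext p
      simp only [mem_filter, mem_union, mem_Icc]
      tauto
    · rw [disjoint_left]
      intro p hp hp'
      have h1 := (mem_filter.1 hp).2.2.2
      have h2 := (mem_filter.1 hp').2.2.2
      rw [h1] at h2
      omega
  rw [h]; push_cast; rfl

/-- the sign of the trace -/
noncomputable def sg (A B t : ℤ) (p : ℕ) : ℝ := if ap A B p = t then 1 else -1

lemma indep_id (P : Finset ℕ) (hP : ∀ p ∈ P, p.Prime) : Indep P (fun p => p) := by
  classical
  intro m f hf hsq q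
  by_cases hq : q ∈ P
  · have hqp := hP q hq
    have h1 := even_fact (prod_ne_zero_iff.2 fun j _ => (hP _ (hf j)).ne_zero) hsq q
    rw [Nat.factorization_prod fun j _ => (hP _ (hf j)).ne_zero, Finsupp.finsetSum_apply] at h1
    have h2 : cnt f q = ∑ j, (f j).factorization q := by
      unfold cnt
      refine sum_congr rfl fun j _ => ?_
      rw [(hP _ (hf j)).factorization, Finsupp.single_apply]
    rw [h2]
    exact h1
  · have h2 : cnt f q = 0 := by
      unfold cnt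
      apply sum_eq_zero
      intro j _
      rw [if_neg]
      rintro rfl
      exact hq (hf j)
    rw [h2]
    exact Even.zero

/-- counting the primes with trace `t` for the twist -/
lemma piT_twist (A B t D : ℤ) (ht : t ≠ 0) (x : ℕ) :
    (piT (A * D ^ 2) (B * D ^ 3) t x : ℝ) =
      ∑ p ∈ PT A B t x, ((if (p : ℤ) ∣ D then 0 else 1) + sg A B t p * (jacobiSym D p : ℝ)) / 2 := by
  classical
  have h1 : piT (A * D ^ 2) (B * D ^ 3) t x = ((PT A B t x).filter (fun p : ℕ =>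
      ¬ (p : ℤ) ∣ D ∧ (jacobiSym D p : ℤ) * ap A B p = t)).card := by
    unfold piT
    congr 1
    ext p
    rw [mem_filter, mem_filter, mem_PT, mem_Icc]
    constructor
    · rintro ⟨hp, hpp, hnd, hap⟩
      have hdisc : 2 * (4 * (A * D ^ 2) ^ 3 + 27 * (B * D ^ 3) ^ 2) =
        2 * (4 * A ^ 3 + 27 * B ^ 2) * D ^ 6 := by ring
      have hpD : ¬ (p : ℤ) ∣ D := by
        intro h
        apply hnd
        rw [hdisc]
        exact Dvd.dvd.mul_left (dvd_pow h (by norm_num)) _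
      have hpd : ¬ (p : ℤ) ∣ 2 * (4 * A ^ 3 + 27 * B ^ 2) := by
        intro h
        apply hnd
        rw [hdisc]
        exact Dvd.dvd.mul_right h _
      have hp2 : p ≠ 2 := by
        rintro rfl
        exact hpd (Dvd.intro _ rfl)
      rw [ap_twist A B D hpp hp2] at hap
      refine ⟨⟨hp, hpp, hpd, ?_⟩, hpD, hap⟩
      rcases jacobiSym.trichotomy D p with h | h | h
      · rw [h, zero_mul] at hap; exact absurd hap.symm ht
      · rw [h, one_mul] at hap; left; exact hap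
      · rw [h] at hap; right; omega
    · rintro ⟨⟨hp, hpp, hpd, _⟩, hpD, hap⟩
      have hp2 : p ≠ 2 := by
        rintro rfl
        exact hpd (Dvd.intro _ rfl)
      refine ⟨hp, hpp, ?_, ?_⟩
      · rw [dvd_disc A B D hpp hpD]; exact hpd
      · rw [ap_twist A B D hpp hp2]; exact hap
  rw [h1, card_filter]
  push_cast
  refine sum_congr rfl fun p hp => ?_
  obtain ⟨_, hpp, hpd, hor⟩ := mem_PT.1 hp
  by_cases hpD : (p : ℤ) ∣ D
  · have h0 : jacobiSym D p = 0 := by
      by_contra hne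
      exact not_dvd_of_jac hpp hne hpD
    rw [if_pos hpD, h0, if_neg (fun h => h.1 hpD)]
    simp
  · rw [if_neg hpD]
    have hj : jacobiSym D p = 1 ∨ jacobiSym D p = -1 := by
      rcases jacobiSym.trichotomy D p with h | h | h
      · exfalso
        have : NeZero p := ⟨hpp.ne_zero⟩
        have h2 := (jacobiSym.eq_zero_iff_not_coprime).1 h
        apply h2
        rw [Int.gcd_comm]
        exact Int.isCoprime_iff_gcd_eq_one.1
          (((Nat.prime_iff_prime_int.1 hpp).coprime_iff_not_dvd).2 hpD)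
      · left; exact h
      · right; exact h
    unfold sg
    rcases hor with hap | hap <;> rcases hj with hj | hj <;> rw [hap, hj]
    · simp [hpD]
    · have : ¬ (-1 * t = t) := by omega
      rw [if_neg (fun h => this h.2), if_pos rfl]; norm_num
    · have h3 : ¬ (1 * -t = t) := by omega
      have h4 : ¬ (-t = t) := by omega
      rw [if_neg (fun h => h3 h.2), if_neg h4]; norm_num
    · have h4 : ¬ (-t = t) := by omega
      rw [if_pos ⟨hpD, by ring⟩, if_neg h4]; norm_num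

lemma few_div (P : Finset ℕ) (hP : ∀ p ∈ P, p.Prime) (D : ℤ) (hD : D ≠ 0) :
    ((P.filter (fun p : ℕ => (p : ℤ) ∣ D)).card : ℝ) ≤ 2 * Real.log (D.natAbs : ℝ) := by
  classical
  have hD0 : D.natAbs ≠ 0 := Int.natAbs_ne_zero.2 hD
  have h1 : (P.filter (fun p : ℕ => (p : ℤ) ∣ D)).card ≤ D.natAbs.primeFactors.card := by
    apply card_le_card
    intro p hp
    obtain ⟨h1, h2⟩ := mem_filter.1 hp
    rw [Nat.mem_primeFactors]
    exact ⟨hP p h1, Int.natCast_dvd.1 h2, hD0⟩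
  have h3 : 2 ^ D.natAbs.primeFactors.card ≤ D.natAbs := by
    calc 2 ^ D.natAbs.primeFactors.card = ∏ _p ∈ D.natAbs.primeFactors, 2 := by simp
      _ ≤ ∏ p ∈ D.natAbs.primeFactors, p :=
          prod_le_prod' fun p hp => (Nat.prime_of_mem_primeFactors hp).two_le
      _ ≤ D.natAbs := Nat.le_of_dvd (Nat.pos_of_ne_zero hD0) (Nat.prod_primeFactors_dvd _)
  have h4 : ((2 : ℝ) ^ D.natAbs.primeFactors.card) ≤ (D.natAbs : ℝ) := by exact_mod_cast h3
  have h5 := Real.log_le_log (by positivity) h4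
  rw [Real.log_pow] at h5
  have h6 := Real.log_two_gt_d9
  have h7 : (0 : ℝ) ≤ (D.natAbs.primeFactors.card : ℝ) := Nat.cast_nonneg _
  have h8 : ((P.filter (fun p : ℕ => (p : ℤ) ∣ D)).card : ℝ) ≤ (D.natAbs.primeFactors.card : ℝ) := by
    exact_mod_cast h1
  nlinarith

theorem lt_main (ε : ℝ) (hε : 0 < ε) :
    ∃ C c : ℝ, 0 < C ∧ 0 < c ∧ ∃ N₀ : ℕ, ∀ N : ℕ, N₀ ≤ N → ∀ A B : ℤ,
      ({D : ℤ | D ≠ 0 ∧ |D| ≤ N ∧ ∃ x : ℕ, (Real.log N) ^ C ≤ x ∧ (x : ℝ) ≤ (N : ℝ) ^ c ∧
        ∃ t : ℤ, t ≠ 0 ∧ √((piT A B t x : ℝ) + piT A B (-t) x) * (x : ℝ) ^ ε <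
          |(piT (A * D ^ 2) (B * D ^ 3) t x : ℝ) - (piT A B t x + piT A B (-t) x) / 2|}.ncard : ℝ) ≤
        (N : ℝ) ^ (1 - c) := by
  classical
  obtain ⟨A₀, c, hA₀, hc, N₁, hN₁⟩ := uniform 1 1 (ε / 2) (by positivity) (by positivity)
  set C : ℝ := max A₀ (2 / ε) with hC
  have hC0 : 0 < C := lt_max_of_lt_left hA₀
  -- how large `x` has to be
  have hK₁ : ∃ K₁ : ℕ, ∀ K : ℕ, K₁ ≤ K → (3 : ℝ) ≤ (K : ℝ) ^ (ε / 2) := by
    have := ((tendsto_rpow_atTop (by positivity : 0 < ε / 2)).comp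
      tendsto_natCast_atTop_atTop).eventually_ge_atTop (3 : ℝ)
    exact Filter.eventually_atTop.1 this
  obtain ⟨K₁, hK₁⟩ := hK₁
  have hlim := ((tendsto_rpow_atTop hC0).comp (Real.tendsto_log_atTop.comp
    tendsto_natCast_atTop_atTop)).eventually_ge_atTop (K₁ : ℝ)
  have hlim2 := (Real.tendsto_log_atTop.comp tendsto_natCast_atTop_atTop).eventually_ge_atTop (1 : ℝ)
  obtain ⟨N₂, hN₂⟩ := Filter.eventually_atTop.1 (hlim.and hlim2)
  refine ⟨C, c, hC0, hc, max N₁ N₂, fun N hN A B => ?_⟩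
  have hNN₁ : N₁ ≤ N := le_trans (le_max_left _ _) hN
  obtain ⟨hL, hL1⟩ := hN₂ N (le_trans (le_max_right _ _) hN)
  simp only [Function.comp_apply] at hL hL1
  have key := hN₁ N hNN₁ ℕ ℕ (fun y => Icc 1 y) (fun y t => PT A B t y)
    (fun _ t => sg A B t) (fun _ _ p => p) ?_
  swap
  · intro y hy1 hy2
    constructor
    · simp
    · intro t ht
      have hodd : ∀ p ∈ PT A B t y, Odd p := by
        intro p hp
        obtain ⟨_, hpp, hpd, _⟩ := mem_PT.1 hp
        apply hpp.odd_of_ne_two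
        rintro rfl
        exact hpd (Dvd.intro _ rfl)
      refine ⟨?_, hodd, ?_, ?_, ?_⟩
      · have : (PT A B t y).card ≤ (Icc 1 y).card := by
          apply card_le_card
          intro p hp
          exact mem_Icc.2 (mem_PT.1 hp).1
        simpa using this
      · intro p hp
        rw [pow_one]
        exact (mem_PT.1 hp).1.2
      · exact indep_id _ fun p hp => (mem_PT.1 hp).2.1
      · intro p _
        unfold sg
        split_ifs <;> norm_num
  refine le_trans ?_ key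
  rw [← Set.ncard_coe_finset]
  have hle : ({D : ℤ | D ≠ 0 ∧ |D| ≤ N ∧ ∃ x : ℕ, (Real.log N) ^ C ≤ x ∧ (x : ℝ) ≤ (N : ℝ) ^ c ∧
        ∃ t : ℤ, t ≠ 0 ∧ √((piT A B t x : ℝ) + piT A B (-t) x) * (x : ℝ) ^ ε <
          |(piT (A * D ^ 2) (B * D ^ 3) t x : ℝ) - (piT A B t x + piT A B (-t) x) / 2|}).ncard ≤ _ :=
    Set.ncard_le_ncard (t := (((Icc (-(N : ℤ)) N).filter (fun D => ∃ y : ℕ, (Real.log N) ^ A₀ ≤ y ∧
      (y : ℝ) ≤ (N : ℝ) ^ c ∧ ∃ t ∈ Icc 1 y, √(((PT A B (t : ℤ) y).card : ℕ) : ℝ) * (y : ℝ) ^ (ε / 2) <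
        |SD (PT A B (t : ℤ) y) (sg A B (t : ℤ)) (fun p => p) D|) : Finset ℤ) : Set ℤ)) ?_
          (Finset.finite_toSet _)
  · exact_mod_cast hle
  intro D hD
  obtain ⟨hD0, hDN, x, hx1, hx2, t, ht, hlt⟩ := hD
  rw [mem_coe, mem_filter]
  refine ⟨mem_Icc.2 (abs_le.1 hDN), ?_⟩
  by_contra hcon
  apply absurd hlt
  rw [not_lt]
  have hxA : (Real.log N) ^ A₀ ≤ x :=
    le_trans (Real.rpow_le_rpow_of_exponent_le hL1 (le_max_left _ _)) hx1
  have hxK : K₁ ≤ x := by exact_mod_cast le_trans hL hx1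
  have hxε : Real.log N ≤ (x : ℝ) ^ (ε / 2) := by
    have h1 : (Real.log N) ^ (2 / ε) ≤ x :=
      le_trans (Real.rpow_le_rpow_of_exponent_le hL1 (le_max_right _ _)) hx1
    calc Real.log N = ((Real.log N) ^ (2 / ε)) ^ (ε / 2) := by
          rw [← Real.rpow_mul (by linarith)]
          rw [show 2 / ε * (ε / 2) = 1 by field_simp, Real.rpow_one]
      _ ≤ _ := Real.rpow_le_rpow (by positivity) h1 (by positivity)
  -- the difference
  set P := PT A B t x with hP
  have hPp : ∀ p ∈ P, p.Prime := fun p hp => (mem_PT.1 hp).2.1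
  have hcard : ((P.card : ℕ) : ℝ) = piT A B t x + piT A B (-t) x := card_PT A B t ht x
  rw [← hcard, piT_twist A B t D ht x, ← hP]
  have hdec : ∑ p ∈ P, ((if (p : ℤ) ∣ D then (0 : ℝ) else 1) + sg A B t p * (jacobiSym D p : ℝ)) / 2 -
      (P.card : ℝ) / 2 = (SD P (sg A B t) (fun p => p) D - ((P.filter (fun p : ℕ => (p : ℤ) ∣ D)).card : ℝ)) / 2 := by
    rw [← sum_div, sum_add_distrib]
    have h1 : ∑ p ∈ P, (if (p : ℤ) ∣ D then (0 : ℝ) else 1) =
        (P.card : ℝ) - ((P.filter (fun p : ℕ => (p : ℤ) ∣ D)).card : ℝ) := by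
      rw [card_filter]
      push_cast
      rw [card_eq_sum_ones]
      push_cast
      rw [← sum_sub_distrib]
      refine sum_congr rfl fun p _ => ?_
      split_ifs <;> norm_num
    rw [h1]
    unfold SD
    ring
  rw [hdec]
  -- the sum is small
  have hsmall : |SD P (sg A B t) (fun p => p) D| ≤ √(P.card : ℝ) * (x : ℝ) ^ (ε / 2) := by
    rcases P.eq_empty_or_nonempty with hPe | ⟨q, hq⟩
    · rw [hPe]; simp [SD]
    have htx : t.natAbs ∈ Icc 1 x := by
      rw [mem_Icc]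
      refine ⟨Int.natAbs_pos.2 ht, ?_⟩
      obtain ⟨⟨_, hqx⟩, _, _, hor⟩ := mem_PT.1 hq
      have h1 := ap_abs A B q
      have h2 : |ap A B q| = |t| := by
        rcases hor with h | h <;> rw [h]
        exact abs_neg t
      rw [h2] at h1
      have h3 : (t.natAbs : ℤ) ≤ q := by rwa [Int.natCast_natAbs]
      have h4 : t.natAbs ≤ q := by exact_mod_cast h3
      omega
    by_contra hlt'
    rw [not_le] at hlt'
    apply hcon
    refine ⟨x, hxA, hx2, t.natAbs, htx, ?_⟩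
    rcases Int.natAbs_eq t with hta | hta
    · rw [← hta, ← hP]; exact hlt'
    · have hPP : PT A B (t.natAbs : ℤ) x = P := by
        rw [hP]
        ext p
        rw [mem_PT, mem_PT]
        have : ((t.natAbs : ℤ)) = -t := by omega
        rw [this, neg_neg]
        tauto
      have hSS : SD P (sg A B (t.natAbs : ℤ)) (fun p => p) D = - SD P (sg A B t) (fun p => p) D := by
        unfold SD
        rw [← sum_neg_distrib]
        refine sum_congr rfl fun p hp => ?_
        rw [← neg_mul]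
        congr 1
        unfold sg
        have : ((t.natAbs : ℤ)) = -t := by omega
        rw [this]
        obtain ⟨_, _, _, hor⟩ := mem_PT.1 hp
        rcases hor with h | h
        · rw [h, if_neg (by omega), if_pos rfl]
        · rw [h, if_pos rfl, if_neg (by omega)]; norm_num
      rw [hPP, hSS, abs_neg]
      exact hlt'
  have hdiv : ((P.filter (fun p : ℕ => (p : ℤ) ∣ D)).card : ℝ) ≤ √(P.card : ℝ) * (2 * (x : ℝ) ^ (ε / 2)) := by
    rcases P.eq_empty_or_nonempty with hPe | hPn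
    · rw [hPe]; simp
    · have h1 : (1 : ℝ) ≤ √(P.card : ℝ) := by
        rw [Real.one_le_sqrt]
        exact_mod_cast hPn.card_pos
      have h2 := few_div P hPp D hD0
      have h3 : Real.log (D.natAbs : ℝ) ≤ (x : ℝ) ^ (ε / 2) := by
        refine le_trans ?_ hxε
        apply Real.log_le_log
        · have := Int.natAbs_pos.2 hD0
          exact_mod_cast this
        · have : (D.natAbs : ℤ) ≤ N := by rwa [Int.natCast_natAbs]
          exact_mod_cast this
      have h4 : 0 ≤ (x : ℝ) ^ (ε / 2) := by positivity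
      nlinarith
  have h3 := hK₁ x hxK
  have hx0 : (0 : ℝ) < x := by
    have : (0 : ℝ) < (Real.log N) ^ C := Real.rpow_pos_of_pos (by linarith) _
    linarith
  have e2 : (x : ℝ) ^ ε = (x : ℝ) ^ (ε / 2) * (x : ℝ) ^ (ε / 2) := by
    rw [← Real.rpow_add hx0]; congr 1; ring
  rw [e2]
  set b := (x : ℝ) ^ (ε / 2) with hb
  have hb0 : 0 < b := Real.rpow_pos_of_pos hx0 _
  have hs0 : 0 ≤ √(P.card : ℝ) := Real.sqrt_nonneg _
  rw [abs_div, abs_of_pos (by norm_num : (0 : ℝ) < 2), div_le_iff₀ (by norm_num : (0 : ℝ) < 2)]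
  calc |SD P (sg A B t) (fun p => p) D - ((P.filter (fun p : ℕ => (p : ℤ) ∣ D)).card : ℝ)|
      ≤ |SD P (sg A B t) (fun p => p) D| + |((P.filter (fun p : ℕ => (p : ℤ) ∣ D)).card : ℝ)| := abs_sub _ _
    _ ≤ √(P.card : ℝ) * b + √(P.card : ℝ) * (2 * b) := by
        have h5 : |((P.filter (fun p : ℕ => (p : ℤ) ∣ D)).card : ℝ)| =
          ((P.filter (fun p : ℕ => (p : ℤ) ∣ D)).card : ℝ) := abs_of_nonneg (Nat.cast_nonneg _)
        linarith
    _ = √(P.card : ℝ) * b * 3 := by ring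
    _ ≤ √(P.card : ℝ) * b * b := mul_le_mul_of_nonneg_left h3 (by positivity)
    _ ≤ √(P.card : ℝ) * (b * b) * 2 := by nlinarith [mul_nonneg hs0 (mul_pos hb0 hb0).le]

end Pool.Agent.W406.TW
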